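import Mathlib

/-!
# Relations between functions with values `1`, `-1`

A finite group `G` acts on a finite set `M` with an involution `bar`; to the elements `a` of `M` belong
different functions `E a : G → {1, -1}`.  Relations are the odd functions `n` on `M` with
`∑ a, n a * E a g = 0` for all `g`.
-/

namespace Pool.Agent.Lib.MP81632f.Mk6

variable {G α : Type} [Group G] [DecidableEq α] [MulAction G α]

/-- signed functions on a set with involution -/
structure Sys (M : Finset α) (bar : α → α) (E : α → G → ℤ) : Prop where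
  smul_mem : ∀ (g : G), ∀ a ∈ M, g • a ∈ M
  bar_mem : ∀ a ∈ M, bar a ∈ M
  bar_bar : ∀ a ∈ M, bar (bar a) = a
  conj : ∃ c : G, ∀ a ∈ M, c • a = bar a
  smul_bar : ∀ (g : G), ∀ a ∈ M, g • bar a = bar (g • a)
  val : ∀ a ∈ M, ∀ g : G, E a g = 1 ∨ E a g = -1
  act : ∀ a ∈ M, ∀ g h : G, E (h • a) g = E a (g * h)
  neg : ∀ a ∈ M, ∀ g : G, E (bar a) g = -E a g
  inj : ∀ a ∈ M, ∀ b ∈ M, (∀ g, E a g = E b g) → a = b

variable {M : Finset α} {bar : α → α} {E : α → G → ℤ}

/-- relations -/
structure Rel (M : Finset α) (bar : α → α) (E : α → G → ℤ) (n : α → ℤ) : Prop where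
  out : ∀ a, a ∉ M → n a = 0
  odd : ∀ a ∈ M, n (bar a) = -n a
  rel : ∀ g, ∑ a ∈ M, n a * E a g = 0

/-- the norm -/
def nu (M : Finset α) (n : α → ℤ) : ℤ := ∑ a ∈ M, |n a|

/-- half of `M` -/
def pos (M : Finset α) (E : α → G → ℤ) : Finset α := M.filter (fun a => E a 1 = 1)

section basic

theorem Rel.add {n n' : α → ℤ} (h : Rel M bar E n) (h' : Rel M bar E n') : Rel M bar E (n + n') where
  out a ha := by rw [Pi.add_apply, h.out a ha, h'.out a ha, add_zero]
  odd a ha := by rw [Pi.add_apply, Pi.add_apply, h.odd a ha, h'.odd a ha]; ring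
  rel g := by
    have e : ∑ a ∈ M, (n + n') a * E a g = ∑ a ∈ M, n a * E a g + ∑ a ∈ M, n' a * E a g := by
      rw [← Finset.sum_add_distrib]
      exact Finset.sum_congr rfl (fun a _ => by rw [Pi.add_apply]; ring)
    rw [e, h.rel g, h'.rel g, add_zero]

theorem Rel.neg {n : α → ℤ} (h : Rel M bar E n) : Rel M bar E (-n) where
  out a ha := by rw [Pi.neg_apply, h.out a ha, neg_zero]
  odd a ha := by rw [Pi.neg_apply, Pi.neg_apply, h.odd a ha]
  rel g := by
    have e : ∑ a ∈ M, (-n) a * E a g = -∑ a ∈ M, n a * E a g := by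
      rw [← Finset.sum_neg_distrib]
      exact Finset.sum_congr rfl (fun a _ => by rw [Pi.neg_apply]; ring)
    rw [e, h.rel g, neg_zero]

theorem Rel.sub {n n' : α → ℤ} (h : Rel M bar E n) (h' : Rel M bar E n') : Rel M bar E (n - n') := by
  rw [sub_eq_add_neg]
  exact h.add h'.neg

theorem Rel.smul {n : α → ℤ} (h : Rel M bar E n) (c : ℤ) : Rel M bar E (c • n) where
  out a ha := by rw [Pi.smul_apply, h.out a ha, smul_zero]
  odd a ha := by rw [Pi.smul_apply, Pi.smul_apply, h.odd a ha, smul_neg]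
  rel g := by
    have e : ∑ a ∈ M, (c • n) a * E a g = c * ∑ a ∈ M, n a * E a g := by
      rw [Finset.mul_sum]
      exact Finset.sum_congr rfl (fun a _ => by rw [Pi.smul_apply, smul_eq_mul]; ring)
    rw [e, h.rel g, mul_zero]

/-- exact halves -/
theorem Rel.half {n u : α → ℤ} (h : Rel M bar E n) (hu : ∀ a, n a = 2 * u a) : Rel M bar E u where
  out a ha := by have := h.out a ha; rw [hu a] at this; omega
  odd a ha := by have := h.odd a ha; rw [hu a, hu (bar a)] at this; omega
  rel g := by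
    have e : ∑ a ∈ M, n a * E a g = 2 * ∑ a ∈ M, u a * E a g := by
      rw [Finset.mul_sum]
      exact Finset.sum_congr rfl (fun a _ => by rw [hu a]; ring)
    have := h.rel g
    rw [e] at this
    omega

theorem Rel.zero : Rel M bar E (0 : α → ℤ) where
  out a _ := rfl
  odd a _ := by simp
  rel g := by simp

theorem nu_nonneg (n : α → ℤ) : 0 ≤ nu M n := Finset.sum_nonneg (fun a _ => abs_nonneg (n a))

theorem nu_neg (n : α → ℤ) : nu M (-n) = nu M n := by
  unfold nu
  exact Finset.sum_congr rfl (fun a _ => by rw [Pi.neg_apply, abs_neg])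

theorem Rel.nu_eq_zero {n : α → ℤ} (h : Rel M bar E n) (h0 : nu M n = 0) : n = 0 := by
  ext a
  by_cases ha : a ∈ M
  · have := (Finset.sum_eq_zero_iff_of_nonneg (fun a _ => abs_nonneg (n a))).1 h0 a ha
    exact abs_eq_zero.1 this
  · exact h.out a ha

variable (S : Sys M bar E)
include S

theorem Sys.bar_ne {a : α} (ha : a ∈ M) : bar a ≠ a := by
  intro h
  have h1 := S.neg a ha 1
  rw [h] at h1
  rcases S.val a ha 1 with h2 | h2 <;> omega

theorem Sys.inj_neg {a b : α} (ha : a ∈ M) (hb : b ∈ M) (h : ∀ g, E a g = -E b g) : a = bar b :=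
  S.inj a ha (bar b) (S.bar_mem b hb) (fun g => by rw [h g, S.neg b hb g])

theorem Sys.smul_mem_iff (g : G) {a : α} : g • a ∈ M ↔ a ∈ M := by
  constructor
  · intro h
    have := S.smul_mem g⁻¹ _ h
    rwa [inv_smul_smul] at this
  · exact S.smul_mem g a

theorem Sys.sum_smul (g : G) (f : α → ℤ) : ∑ a ∈ M, f (g • a) = ∑ a ∈ M, f a :=
  Finset.sum_nbij' (fun a => g • a) (fun a => g⁻¹ • a) (fun a ha => S.smul_mem g a ha)
    (fun a ha => S.smul_mem g⁻¹ a ha) (fun a _ => inv_smul_smul g a) (fun a _ => smul_inv_smul g a)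
    (fun a _ => rfl)

theorem Sys.sum_bar (f : α → ℤ) : ∑ a ∈ M, f (bar a) = ∑ a ∈ M, f a :=
  Finset.sum_nbij' bar bar S.bar_mem S.bar_mem S.bar_bar S.bar_bar (fun a _ => rfl)

/-- translation of a relation -/
theorem Sys.trans (k : G) {n : α → ℤ} (h : Rel M bar E n) : Rel M bar E (fun a => n (k • a)) where
  out a ha := h.out _ (fun h' => ha ((S.smul_mem_iff k).1 h'))
  odd a ha := by rw [S.smul_bar k a ha, h.odd _ (S.smul_mem k a ha)]
  rel g := by
    have h1 := h.rel (g * k⁻¹)
    rw [← S.sum_smul k] at h1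
    rw [← h1]
    apply Finset.sum_congr rfl
    intro a ha
    rw [S.act a ha, inv_mul_cancel_right]

theorem Sys.nu_trans (k : G) (n : α → ℤ) : nu M (fun a => n (k • a)) = nu M n :=
  S.sum_smul k (fun a => |n a|)

/-- sums over `M` of even functions -/
theorem Sys.sum_pos (f : α → ℤ) (hf : ∀ a ∈ M, f (bar a) = f a) :
    ∑ a ∈ M, f a = 2 * ∑ a ∈ pos M E, f a := by
  have h1 := Finset.sum_filter_add_sum_filter_not M (fun a => E a 1 = 1) f
  have h2 : ∑ a ∈ M.filter (fun a => ¬ E a 1 = 1), f a = ∑ a ∈ M.filter (fun a => E a 1 = 1), f a := by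
    apply Finset.sum_nbij' bar bar
    · intro a ha
      rw [Finset.mem_filter] at ha ⊢
      refine ⟨S.bar_mem a ha.1, ?_⟩
      rw [S.neg a ha.1]
      rcases S.val a ha.1 1 with h | h
      · exact absurd h ha.2
      · rw [h]; norm_num
    · intro a ha
      rw [Finset.mem_filter] at ha ⊢
      refine ⟨S.bar_mem a ha.1, ?_⟩
      rw [S.neg a ha.1, ha.2]
      norm_num
    · intro a ha
      exact S.bar_bar a (Finset.mem_filter.1 ha).1
    · intro a ha
      exact S.bar_bar a (Finset.mem_filter.1 ha).1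
    · intro a ha
      exact (hf a (Finset.mem_filter.1 ha).1).symm
  rw [← h1, h2]
  unfold pos
  ring

theorem Sys.rel_pos {n : α → ℤ} (h : Rel M bar E n) (g : G) : ∑ a ∈ pos M E, n a * E a g = 0 := by
  have h1 := S.sum_pos (fun a => n a * E a g) (fun a ha => by rw [h.odd a ha, S.neg a ha]; ring)
  rw [h.rel g] at h1
  omega

theorem Sys.nu_pos {n : α → ℤ} (h : Rel M bar E n) : nu M n = 2 * ∑ a ∈ pos M E, |n a| :=
  S.sum_pos (fun a => |n a|) (fun a ha => by rw [h.odd a ha, abs_neg])

theorem Sys.nu_dvd {n : α → ℤ} (h : Rel M bar E n) : (4 : ℤ) ∣ nu M n := by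
  rw [S.nu_pos h]
  have h1 := S.rel_pos h 1
  have h2 : (2 : ℤ) ∣ ∑ a ∈ pos M E, |n a| := by
    have h3 : ∑ a ∈ pos M E, |n a| = ∑ a ∈ pos M E, (|n a| - n a * E a 1) := by
      rw [Finset.sum_sub_distrib, h1, sub_zero]
    rw [h3]
    apply Finset.dvd_sum
    intro a ha
    have h4 : E a 1 = 1 := (Finset.mem_filter.1 ha).2
    rw [h4, mul_one]
    rcases abs_choice (n a) with h5 | h5 <;> rw [h5]
    · simp
    · exact ⟨-n a, by ring⟩
  obtain ⟨c, hc⟩ := h2
  exact ⟨c, by rw [hc]; ring⟩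

/-- no coefficient of a relation dominates -/
theorem Sys.dominance {n : α → ℤ} (h : Rel M bar E n) {a : α} (ha : a ∈ M) (h0 : n a ≠ 0)
    (hd : nu M n ≤ 4 * |n a|) : False := by
  have hbar := S.bar_ne ha
  set R := (M.erase a).erase (bar a) with hR
  have hsplit : ∀ f : α → ℤ, ∑ c ∈ M, f c = f a + (f (bar a) + ∑ c ∈ R, f c) := by
    intro f
    rw [← Finset.add_sum_erase M f ha, ← Finset.add_sum_erase (M.erase a) f
      (Finset.mem_erase.2 ⟨hbar, S.bar_mem a ha⟩)]
  have hmem : ∀ c ∈ R, c ∈ M ∧ c ≠ a ∧ c ≠ bar a := by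
    intro c hc
    rw [hR, Finset.mem_erase, Finset.mem_erase] at hc
    exact ⟨hc.2.2, hc.2.1, hc.1⟩
  have h1 : nu M n = 2 * |n a| + ∑ c ∈ R, |n c| := by
    unfold nu
    rw [hsplit, h.odd a ha, abs_neg]
    ring
  have h2 : ∀ g, 2 * (n a * E a g) + ∑ c ∈ R, n c * E c g = 0 := by
    intro g
    have := h.rel g
    rw [hsplit, h.odd a ha, S.neg a ha] at this
    linarith
  -- all terms have the sign opposite to that of `a`
  have h3 : ∀ g, ∀ c ∈ R, n c * E c g * (n a * E a g) = -(|n c| * |n a|) := by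
    intro g
    have hval : |n a * E a g| = |n a| := by
      rcases S.val a ha g with h | h <;> rw [h] <;> simp
    have hpos : 0 < |n a| := abs_pos.2 h0
    have hk : ∀ c ∈ R, 0 ≤ n c * E c g * (n a * E a g) + |n c| * |n a| := by
      intro c hc
      have hv : |n c * E c g| = |n c| := by
        rcases S.val c (hmem c hc).1 g with h | h <;> rw [h] <;> simp
      have := neg_abs_le (n c * E c g * (n a * E a g))
      rw [abs_mul, hv, hval] at this
      linarith
    have hsum : ∑ c ∈ R, (n c * E c g * (n a * E a g) + |n c| * |n a|) ≤ 0 := by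
      rw [Finset.sum_add_distrib, ← Finset.sum_mul, ← Finset.sum_mul]
      have e1 : ∑ c ∈ R, n c * E c g = -(2 * (n a * E a g)) := by linarith [h2 g]
      rw [e1]
      have e2 : (n a * E a g) * (n a * E a g) = |n a| * |n a| := by
        rw [← hval, abs_mul_abs_self]
      have e3 : ∑ c ∈ R, |n c| ≤ 2 * |n a| := by linarith
      nlinarith
    intro c hc
    have h4 := (Finset.sum_eq_zero_iff_of_nonneg hk).1 (le_antisymm hsum (Finset.sum_nonneg hk)) c hc
    linarith
  have h4 : ∀ c ∈ R, n c = 0 := by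
    intro c hc
    by_contra hc0
    obtain ⟨hcM, hca, hcb⟩ := hmem c hc
    have hne : |n c| * |n a| ≠ 0 := mul_ne_zero (abs_pos.2 hc0).ne' (abs_pos.2 h0).ne'
    have h5 : ∀ g, n c * n a * (E c g * E a g) = -(|n c| * |n a|) := by
      intro g
      rw [← h3 g c hc]
      ring
    rcases lt_or_gt_of_ne (mul_ne_zero hc0 h0) with h6 | h6
    · apply hca
      apply S.inj c hcM a ha
      intro g
      have h7 := h5 g
      rw [← abs_mul, abs_of_neg h6, neg_neg] at h7
      have h8 : E c g * E a g = 1 := by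
        have := mul_left_cancel₀ h6.ne (h7.trans (mul_one _).symm)
        exact this
      rcases S.val c hcM g with h | h <;> rcases S.val a ha g with h' | h' <;> rw [h, h'] at h8 ⊢ <;>
        omega
    · apply hcb
      apply S.inj_neg hcM ha
      intro g
      have h7 := h5 g
      rw [← abs_mul, abs_of_pos h6] at h7
      have h8 : E c g * E a g = -1 := by
        have := mul_left_cancel₀ h6.ne' (h7.trans (mul_neg_one _).symm)
        exact this
      rcases S.val c hcM g with h | h <;> rcases S.val a ha g with h' | h' <;> rw [h, h'] at h8 ⊢ <;>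
        omega
  have h5 := h2 1
  rw [Finset.sum_eq_zero (fun c hc => by rw [h4 c hc, zero_mul]), add_zero] at h5
  rcases S.val a ha 1 with h | h <;> rw [h] at h5 <;> omega

theorem Sys.nu_ge {n : α → ℤ} (h : Rel M bar E n) (h0 : n ≠ 0) : 8 ≤ nu M n := by
  obtain ⟨a, ha⟩ : ∃ a, n a ≠ 0 := by
    by_contra hh
    apply h0
    ext a
    by_contra h'
    exact hh ⟨a, h'⟩
  have haM : a ∈ M := by
    by_contra h'
    exact ha (h.out a h')
  obtain ⟨c, hc⟩ := S.nu_dvd h
  have h1 := nu_nonneg (M := M) n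
  have h2 : nu M n ≠ 0 := fun h' => h0 (h.nu_eq_zero h')
  by_contra h3
  have h4 : nu M n ≤ 4 := by omega
  have h5 : 1 ≤ |n a| := Int.one_le_abs ha
  exact S.dominance h haM ha (by linarith)

theorem Sys.le_one {n : α → ℤ} (h : Rel M bar E n) (h8 : nu M n = 8) (a : α) : |n a| ≤ 1 := by
  by_contra h1
  have ha : n a ≠ 0 := by
    rintro h'
    rw [h'] at h1
    simp at h1
  have haM : a ∈ M := by
    by_contra h'
    exact ha (h.out a h')
  exact S.dominance h haM ha (by rw [h8]; omega)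

end basic

end Pool.Agent.Lib.MP81632f.Mk6
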