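import Pool.Agent.Lib.MP_81632f_ag.Mk6.Quad

/-! # Relations which are not semi-invariant -/

namespace Pool.Agent.Lib.MP81632f.Mk6

section lin

/-- few rows determine all rows -/
theorem rows {G ι : Type} [One G] [Fintype ι] (ρ : G → ι → ℚ) (h1 : ρ 1 ≠ 0) (x y : ι → ℚ)
    (hx : ∀ g, ρ g ⬝ᵥ x = 0) (hy : ∀ g, ρ g ⬝ᵥ y = 0) (hli : LinearIndependent ℚ ![x, y]) :
    ∃ b : Finset G, (1 : G) ∈ b ∧ b.card + 2 ≤ Fintype.card ι ∧
      ∀ c : ι → ℚ, (∀ g ∈ b, ρ g ⬝ᵥ c = 0) → ∀ g, ρ g ⬝ᵥ c = 0 := by
  classical
  have hs : LinearIndepOn ℚ id ({ρ 1} : Set (ι → ℚ)) := by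
    rw [linearIndepOn_singleton_iff]
    exact h1
  obtain ⟨b, hbt, hsb, htb, hb⟩ := exists_linearIndepOn_id_extension hs
    (show ({ρ 1} : Set (ι → ℚ)) ⊆ Set.range ρ by
      rw [Set.singleton_subset_iff]; exact ⟨1, rfl⟩)
  have hfin : b.Finite := hb.setFinite
  set W := Submodule.span ℚ b with hW
  set U := Submodule.span ℚ (Set.range ![x, y]) with hU
  have hWx : ∀ w ∈ W, w ⬝ᵥ x = 0 ∧ w ⬝ᵥ y = 0 := by
    intro w hw
    induction hw using Submodule.span_induction with
    | mem w hw =>
      obtain ⟨g, rfl⟩ := hbt hw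
      exact ⟨hx g, hy g⟩
    | zero => simp
    | add u w _ _ hu hw =>
      rw [add_dotProduct, add_dotProduct, hu.1, hu.2, hw.1, hw.2]
      simp
    | smul a w _ hw =>
      rw [smul_dotProduct, smul_dotProduct, hw.1, hw.2]
      simp
  have hdis : Disjoint W U := by
    rw [Submodule.disjoint_def]
    intro w hw hwU
    have h2 : ∀ u ∈ U, w ⬝ᵥ u = 0 := by
      intro u hu
      induction hu using Submodule.span_induction with
      | mem u hu =>
        obtain ⟨i, rfl⟩ := hu
        fin_cases i
        · exact (hWx w hw).1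
        · exact (hWx w hw).2
      | zero => simp
      | add u u' _ _ hu hu' => rw [dotProduct_add, hu, hu', add_zero]
      | smul a u _ hu => rw [dotProduct_smul, hu, smul_zero]
    exact dotProduct_self_eq_zero.1 (h2 w hwU)
  have hfr := Submodule.finrank_add_finrank_le_of_disjoint hdis
  have hfU : Module.finrank ℚ U = 2 := by
    rw [hU, finrank_span_eq_card hli]
    simp
  have hbli : LinearIndependent ℚ ((↑) : b → (ι → ℚ)) := hb
  have := hfin.fintype
  have hfW := finrank_span_set_eq_card hbli
  rw [← hW] at hfW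
  rw [hfW, hfU, Module.finrank_fintype_fun_eq_card] at hfr
  -- choose group elements
  have hch : ∀ w ∈ b, ∃ g : G, ρ g = w := fun w hw => hbt hw
  choose! γ hγ using hch
  have hr1 : ρ 1 ∈ b := hsb rfl
  refine ⟨insert 1 ((b.toFinset.erase (ρ 1)).image γ), Finset.mem_insert_self _ _, ?_, ?_⟩
  · have e1 : (insert (1 : G) ((b.toFinset.erase (ρ 1)).image γ)).card ≤
        ((b.toFinset.erase (ρ 1)).image γ).card + 1 := Finset.card_insert_le _ _
    have e2 : ((b.toFinset.erase (ρ 1)).image γ).card ≤ (b.toFinset.erase (ρ 1)).card :=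
      Finset.card_image_le
    have e3 : (b.toFinset.erase (ρ 1)).card = b.toFinset.card - 1 :=
      Finset.card_erase_of_mem (Set.mem_toFinset.2 hr1)
    have e4 : 0 < b.toFinset.card := Finset.card_pos.2 ⟨_, Set.mem_toFinset.2 hr1⟩
    omega
  · intro c hc g
    have h3 : ∀ w ∈ b, w ⬝ᵥ c = 0 := by
      intro w hw
      by_cases hw1 : w = ρ 1
      · rw [hw1]
        exact hc 1 (Finset.mem_insert_self _ _)
      · rw [← hγ w hw]
        apply hc
        apply Finset.mem_insert_of_mem
        exact Finset.mem_image_of_mem _ (Finset.mem_erase.2 ⟨hw1, Set.mem_toFinset.2 hw⟩)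
    have h4 : ∀ w ∈ W, w ⬝ᵥ c = 0 := by
      intro w hw
      induction hw using Submodule.span_induction with
      | mem w hw => exact h3 w hw
      | zero => simp
      | add u w _ _ hu hw => rw [add_dotProduct, hu, hw, add_zero]
      | smul a w _ hw => rw [smul_dotProduct, hw, smul_zero]
    exact h4 _ (htb ⟨g, rfl⟩)

end lin

section cube

/-- the vertices of the cube -/
abbrev B3 : Type := Bool × Bool × Bool

/-- signs -/
def sg (b : Bool) : ℤ := if b then 1 else -1

/-- the parallelograms `x + y = z + w` in the cube -/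
def par : Fin 12 → (B3 × B3) × (B3 × B3) := ![
  (((true, true, true), (true, false, false)), ((true, true, false), (true, false, true))),
  (((false, true, true), (false, false, false)), ((false, true, false), (false, false, true))),
  (((true, true, true), (false, true, false)), ((true, true, false), (false, true, true))),
  (((true, false, true), (false, false, false)), ((true, false, false), (false, false, true))),
  (((true, true, true), (false, false, true)), ((true, false, true), (false, true, true))),
  (((true, true, false), (false, false, false)), ((true, false, false), (false, true, false))),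
  (((true, true, true), (false, false, false)), ((true, true, false), (false, false, true))),
  (((true, false, true), (false, true, false)), ((true, false, false), (false, true, true))),
  (((true, true, true), (false, false, false)), ((true, false, true), (false, true, false))),
  (((true, true, false), (false, false, true)), ((true, false, false), (false, true, true))),
  (((true, true, true), (false, false, false)), ((false, true, true), (true, false, false))),
  (((true, true, false), (false, false, true)), ((false, true, false), (true, false, true)))]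

/-- the vertices of a parallelogram -/
def vert (i : Fin 12) : List B3 := [(par i).1.1, (par i).1.2, (par i).2.1, (par i).2.2]

theorem par_sum : ∀ i : Fin 12,
    sg (par i).1.1.1 + sg (par i).1.2.1 = sg (par i).2.1.1 + sg (par i).2.2.1 ∧
    sg (par i).1.1.2.1 + sg (par i).1.2.2.1 = sg (par i).2.1.2.1 + sg (par i).2.2.2.1 ∧
    sg (par i).1.1.2.2 + sg (par i).1.2.2.2 = sg (par i).2.1.2.2 + sg (par i).2.2.2.2 := by
  decide

theorem par_nodup : ∀ i : Fin 12, (vert i).Nodup := by decide

/-- two parallelograms without two given points -/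
def okk (p q : B3) (i j : Fin 12) : Bool :=
  !(vert i).contains p && !(vert i).contains q && !(vert j).contains p && !(vert j).contains q &&
    (vert i).any (fun x => !(vert j).contains x)

theorem okk_all : ∀ p q : B3, ∃ i j : Fin 12, okk p q i j = true := by
  decide

theorem cube (p q : B3) : ∃ i j : Fin 12, p ∉ vert i ∧ q ∉ vert i ∧ p ∉ vert j ∧ q ∉ vert j ∧
    ∃ x ∈ vert i, x ∉ vert j := by
  obtain ⟨i, j, h⟩ := okk_all p q
  refine ⟨i, j, ?_⟩
  unfold okk at h
  simpa [and_assoc] using h

end cube

variable {G α : Type} [Group G] [DecidableEq α] [MulAction G α]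
variable {M : Finset α} {bar : α → α} {E : α → G → ℤ}

/-- the difference vector of a parallelogram -/
def dd (a b c d z : α) : ℤ :=
  (if z = a then 1 else 0) + (if z = b then 1 else 0) - (if z = c then 1 else 0) -
    (if z = d then 1 else 0)

theorem sum_dd {P : Finset α} {a b c d : α} (ha : a ∈ P) (hb : b ∈ P) (hc : c ∈ P) (hd : d ∈ P)
    (f : α → ℤ) : ∑ z ∈ P, dd a b c d z * f z = f a + f b - f c - f d := by
  unfold dd
  simp only [add_mul, sub_mul, ite_mul, one_mul, zero_mul, Finset.sum_add_distrib,
    Finset.sum_sub_distrib, Finset.sum_ite_eq', ha, hb, hc, hd, if_true]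

theorem Sys.quad_of (S : Sys M bar E) {a b c d : α} (ha : a ∈ pos M E) (hb : b ∈ pos M E)
    (hc : c ∈ pos M E) (hd : d ∈ pos M E) (hn : [a, b, c, d].Nodup)
    (hrel : ∀ g, E a g + E b g = E c g + E d g) :
    ∃ n : α → ℤ, Quad M bar E n ∧ ∀ z ∈ pos M E, (n z ≠ 0 ↔ z ∈ [a, b, c, d]) := by
  have hpM : ∀ z ∈ pos M E, z ∈ M := fun z hz => (Finset.mem_filter.1 hz).1
  have hpb : ∀ z ∈ M, (bar z ∈ pos M E ↔ z ∉ pos M E) := by
    intro z hz
    unfold pos
    rw [Finset.mem_filter, Finset.mem_filter, S.neg z hz]
    have h1 := S.bar_mem z hz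
    rcases S.val z hz 1 with h | h <;> rw [h] <;> simp [hz, h1]
  set n : α → ℤ := fun z => if z ∈ pos M E then dd a b c d z else
    if z ∈ M then -dd a b c d (bar z) else 0 with hn0
  have hnP : ∀ z ∈ pos M E, n z = dd a b c d z := fun z hz => if_pos hz
  have hodd : ∀ z ∈ M, n (bar z) = -n z := by
    intro z hz
    have h1 := hpb z hz
    have h2 := S.bar_mem z hz
    have h3 := S.bar_bar z hz
    by_cases hz' : z ∈ pos M E
    · have h4 : bar z ∉ pos M E := fun h' => (h1.1 h') hz'
      show (if bar z ∈ pos M E then dd a b c d (bar z) else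
        if bar z ∈ M then -dd a b c d (bar (bar z)) else 0) = -n z
      rw [if_neg h4, if_pos h2, h3, hnP z hz']
    · have h4 : bar z ∈ pos M E := h1.2 hz'
      rw [hnP _ h4]
      show dd a b c d (bar z) = -(if z ∈ pos M E then dd a b c d z else
        if z ∈ M then -dd a b c d (bar z) else 0)
      rw [if_neg hz', if_pos hz, neg_neg]
  have hR : Rel M bar E n := by
    refine ⟨?_, hodd, ?_⟩
    · intro z hz
      show (if z ∈ pos M E then dd a b c d z else if z ∈ M then -dd a b c d (bar z) else 0) = 0
      rw [if_neg (fun h' => hz (hpM z h')), if_neg hz]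
    · intro g
      rw [S.sum_pos (fun z => n z * E z g) (fun z hz => by rw [hodd z hz, S.neg z hz]; ring)]
      have e1 : ∑ z ∈ pos M E, n z * E z g = ∑ z ∈ pos M E, dd a b c d z * E z g :=
        Finset.sum_congr rfl (fun z hz => by rw [hnP z hz])
      rw [e1, sum_dd ha hb hc hd]
      have := hrel g
      linarith
  have hab : a ≠ b ∧ a ≠ c ∧ a ≠ d ∧ b ≠ c ∧ b ≠ d ∧ c ≠ d := by
    simp only [List.nodup_cons, List.mem_cons, List.not_mem_nil, or_false, not_or] at hn
    tauto
  obtain ⟨n1, n2, n3, n4, n5, n6⟩ := hab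
  have hval : ∀ z, |dd a b c d z| = (if z = a then 1 else 0) + (if z = b then 1 else 0) +
      (if z = c then 1 else 0) + (if z = d then 1 else 0) := by
    intro z
    unfold dd
    by_cases za : z = a
    · subst za
      simp [n1, n2, n3]
    · by_cases zb : z = b
      · subst zb
        simp [za, n4, n5]
      · by_cases zc : z = c
        · subst zc
          simp [za, zb, n6]
        · by_cases zd : z = d
          · simp [zd, za, zb, zc, n3.symm, n5.symm, n6.symm]
          · simp [za, zb, zc, zd]
  refine ⟨n, ⟨hR, ?_⟩, ?_⟩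
  · rw [S.nu_pos hR]
    have e1 : ∑ z ∈ pos M E, |n z| = ∑ z ∈ pos M E, ((if z = a then 1 else 0) +
        (if z = b then 1 else 0) + (if z = c then 1 else 0) + (if z = d then 1 else 0) : ℤ) :=
      Finset.sum_congr rfl (fun z hz => by rw [hnP z hz, hval z])
    rw [e1]
    simp only [Finset.sum_add_distrib, Finset.sum_ite_eq', ha, hb, hc, hd, if_true]
    norm_num
  · intro z hz
    rw [hnP z hz, ← abs_pos, hval z]
    simp only [List.mem_cons, List.not_mem_nil, or_false]
    by_cases za : z = a
    · simp only [za, true_or, iff_true, if_true]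
      split_ifs <;> norm_num
    · by_cases zb : z = b
      · simp only [zb, true_or, or_true, iff_true, if_true]
        split_ifs <;> norm_num
      · by_cases zc : z = c
        · simp only [zc, true_or, or_true, iff_true, if_true]
          split_ifs <;> norm_num
        · by_cases zd : z = d
          · simp only [zd, or_true, iff_true, if_true]
            split_ifs <;> norm_num
          · simp [za, zb, zc, zd]

theorem Sys.rank (S : Sys M bar E) (hM : M.card ≤ 12) {n : α → ℤ} (h : Rel M bar E n) {k : G}
    (h1 : (fun a => n (k • a)) ≠ n) (h2 : (fun a => n (k • a)) ≠ -n) :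
    ∃ n1 n2 : α → ℤ, Quad M bar E n1 ∧ Quad M bar E n2 ∧ n2 ≠ n1 ∧ n2 ≠ -n1 := by
  classical
  have hn0 : n ≠ 0 := by
    intro h0
    apply h1
    rw [h0]
    rfl
  set P := pos M E with hP
  have hPM : ∀ z ∈ P, z ∈ M := fun z hz => (Finset.mem_filter.1 hz).1
  have hP1 : ∀ z ∈ P, E z 1 = 1 := fun z hz => (Finset.mem_filter.1 hz).2
  have hcard : M.card = 2 * P.card := by
    have := S.sum_pos (fun _ => 1) (fun _ _ => rfl)
    simp only [Finset.sum_const, nsmul_eq_mul, mul_one] at this
    exact_mod_cast this
  let ρ : G → P → ℚ := fun g a => (E a g : ℚ)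
  let x : P → ℚ := fun a => (n a : ℚ)
  let y : P → ℚ := fun a => (n (k • (a : α)) : ℚ)
  have hT := S.trans k h
  have hdot : ∀ (m : α → ℤ), Rel M bar E m → ∀ g, ρ g ⬝ᵥ (fun a : P => (m a : ℚ)) = 0 := by
    intro m hm g
    have h3 := S.rel_pos hm g
    have h4 : (∑ a ∈ P, (m a : ℚ) * (E a g : ℚ)) = 0 := by exact_mod_cast h3
    rw [← Finset.sum_coe_sort] at h4
    unfold dotProduct
    rw [← h4]
    exact Finset.sum_congr rfl (fun a _ => mul_comm _ _)
  have hli : LinearIndependent ℚ ![x, y] := by
    rw [LinearIndependent.pair_iff]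
    intro s t hst
    have h3 : ∀ a ∈ M, s * (n a : ℚ) + t * (n (k • a) : ℚ) = 0 := by
      have h4 : ∀ a ∈ P, s * (n a : ℚ) + t * (n (k • a) : ℚ) = 0 := by
        intro a ha
        exact congrFun hst ⟨a, ha⟩
      intro a ha
      by_cases haP : a ∈ P
      · exact h4 a haP
      · have hb : bar a ∈ P := by
          rw [hP]
          unfold pos
          rw [Finset.mem_filter]
          refine ⟨S.bar_mem a ha, ?_⟩
          rw [S.neg a ha]
          rcases S.val a ha 1 with h5 | h5
          · exact absurd (Finset.mem_filter.2 ⟨ha, h5⟩) haP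
          · rw [h5]; norm_num
        have h5 := h4 _ hb
        have h6 := h.odd a ha
        have h7 := hT.odd a ha
        rw [h6, h7] at h5
        push_cast at h5
        linarith
    have h4 : |s| * (nu M n : ℚ) = |t| * (nu M n : ℚ) := by
      conv_rhs => rw [← S.nu_trans k n]
      unfold nu
      push_cast
      rw [Finset.mul_sum, Finset.mul_sum]
      apply Finset.sum_congr rfl
      intro a ha
      have h5 := h3 a ha
      rw [← abs_mul, ← abs_mul, show s * (n a : ℚ) = -(t * (n (k • a) : ℚ)) by linarith, abs_neg]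
    have h5 : (nu M n : ℚ) ≠ 0 := by
      have := S.nu_ge h hn0
      have h6 : (0 : ℤ) < nu M n := by omega
      exact_mod_cast h6.ne'
    have h6 := mul_right_cancel₀ h5 h4
    by_cases hs : s = 0
    · rw [hs, abs_zero] at h6
      exact ⟨hs, abs_eq_zero.1 h6.symm⟩
    · exfalso
      rcases abs_eq_abs.1 h6 with h7 | h7
      · apply h2
        ext a
        show n (k • a) = -n a
        by_cases ha : a ∈ M
        · have h8 := h3 a ha
          rw [← h7, ← mul_add] at h8
          have h9 := (mul_eq_zero.1 h8).resolve_left hs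
          have h10 : n a + n (k • a) = 0 := by exact_mod_cast h9
          omega
        · rw [h.out a ha, h.out (k • a) (fun h' => ha ((S.smul_mem_iff k).1 h')), neg_zero]
      · apply h1
        ext a
        show n (k • a) = n a
        by_cases ha : a ∈ M
        · have h8 := h3 a ha
          have h8' : s * ((n a : ℚ) - (n (k • a) : ℚ)) = 0 := by
            rw [show t = -s by linarith] at h8
            linarith
          have h9 := (mul_eq_zero.1 h8').resolve_left hs
          have h10 : n a - n (k • a) = 0 := by exact_mod_cast h9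
          omega
        · rw [h.out a ha, h.out (k • a) (fun h' => ha ((S.smul_mem_iff k).1 h'))]
  have hPne : P.Nonempty := by
    rw [← Finset.card_pos]
    by_contra h'
    apply hn0
    ext a
    have : a ∉ M := by
      have h3 : M = ∅ := Finset.card_eq_zero.1 (by omega)
      rw [h3]
      exact Finset.notMem_empty a
    exact h.out a this
  have hρ1 : ρ 1 ≠ 0 := by
    intro h0
    obtain ⟨a, ha⟩ := hPne
    have := congrFun h0 ⟨a, ha⟩
    have h3 : (E a 1 : ℚ) = 0 := this
    rw [hP1 a ha] at h3
    norm_num at h3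
  obtain ⟨b, hb1, hbc, hb⟩ := rows ρ hρ1 x y (hdot n h) (hdot _ hT) hli
  rw [Fintype.card_coe] at hbc
  -- integral version
  have hbZ : ∀ c : α → ℤ, (∀ g ∈ b, ∑ a ∈ P, c a * E a g = 0) → ∀ g, ∑ a ∈ P, c a * E a g = 0 := by
    intro c hc g
    have key : ∀ g, ρ g ⬝ᵥ (fun a : P => (c a : ℚ)) = ((∑ a ∈ P, c a * E a g : ℤ) : ℚ) := by
      intro g
      push_cast
      rw [← Finset.sum_coe_sort]
      unfold dotProduct
      exact Finset.sum_congr rfl (fun a _ => mul_comm _ _)
    have h3 := hb (fun a : P => (c a : ℚ)) (fun g hg => by rw [key, hc g hg]; simp) g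
    rw [key] at h3
    exact_mod_cast h3
  set b' := b.erase 1 with hb'
  have hb'c : b'.card = b.card - 1 := Finset.card_erase_of_mem hb1
  have hbpos : 0 < b.card := Finset.card_pos.2 ⟨1, hb1⟩
  have hsep : ∀ a ∈ P, ∀ c ∈ P, (∀ g ∈ b', E a g = E c g) → a = c := by
    intro a ha c hc hac
    apply S.inj a (hPM a ha) c (hPM c hc)
    have h3 := hbZ (fun z => (if z = a then 1 else 0) - (if z = c then 1 else 0)) (by
      intro g hg
      simp only [sub_mul, ite_mul, one_mul, zero_mul, Finset.sum_sub_distrib, Finset.sum_ite_eq',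
        ha, hc, if_true]
      by_cases hg1 : g = 1
      · rw [hg1, hP1 a ha, hP1 c hc, sub_self]
      · rw [hac g (Finset.mem_erase.2 ⟨hg1, hg⟩), sub_self])
    intro g
    have h4 := h3 g
    simp only [sub_mul, ite_mul, one_mul, zero_mul, Finset.sum_sub_distrib, Finset.sum_ite_eq',
      ha, hc, if_true] at h4
    linarith
  have hpow : P.card ≤ 2 ^ b'.card := by
    have h3 : Function.Injective (fun (a : P) (g : b') => decide (E (a : α) (g : G) = 1)) := by
      intro a c hac
      apply Subtype.ext
      apply hsep _ a.2 _ c.2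
      intro g hg
      have h4 := congrFun hac ⟨g, hg⟩
      simp only [decide_eq_decide] at h4
      rcases S.val _ (hPM _ a.2) g with h5 | h5 <;> rcases S.val _ (hPM _ c.2) g with h6 | h6 <;>
        rw [h5, h6] at h4 ⊢ <;> simp at h4
    have h4 := Fintype.card_le_of_injective _ h3
    rw [Fintype.card_coe, Fintype.card_fun, Fintype.card_bool, Fintype.card_coe] at h4
    exact h4
  have hP6 : P.card = 6 ∧ b'.card = 3 := by
    have h3 : P.card ≤ 6 := by omega
    have h4 : b'.card + 3 ≤ P.card := by omega
    have h5 : b'.card ≤ 3 := by omega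
    interval_cases hh : b'.card <;> norm_num at hpow <;> omega
  obtain ⟨g1, g2, g3, _, _, _, hb3⟩ := Finset.card_eq_three.1 hP6.2
  let u : α → B3 := fun a => (decide (E a g1 = 1), decide (E a g2 = 1), decide (E a g3 = 1))
  have hsg : ∀ a ∈ P, ∀ g, sg (decide (E a g = 1)) = E a g := by
    intro a ha g
    unfold sg
    rcases S.val a (hPM a ha) g with h5 | h5 <;> rw [h5] <;> simp
  have huinj : Set.InjOn u (P : Set α) := by
    intro a ha c hc hac
    apply hsep a ha c hc
    intro g hg
    rw [hb3, Finset.mem_insert, Finset.mem_insert, Finset.mem_singleton] at hg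
    have e1 : decide (E a g1 = 1) = decide (E c g1 = 1) := congrArg (fun w : B3 => w.1) hac
    have e2 : decide (E a g2 = 1) = decide (E c g2 = 1) := congrArg (fun w : B3 => w.2.1) hac
    have e3 : decide (E a g3 = 1) = decide (E c g3 = 1) := congrArg (fun w : B3 => w.2.2) hac
    rw [← hsg a ha g, ← hsg c hc g]
    rcases hg with rfl | rfl | rfl
    · rw [e1]
    · rw [e2]
    · rw [e3]
  have himg : (P.image u).card = 6 := by rw [Finset.card_image_of_injOn huinj, hP6.1]
  have hcompl : ((P.image u)ᶜ).card = 2 := by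
    rw [Finset.card_compl, himg]
    rfl
  obtain ⟨p, q, _, hpq⟩ := Finset.card_eq_two.1 hcompl
  have hsurj : ∀ z : B3, z ≠ p → z ≠ q → ∃ a ∈ P, u a = z := by
    intro z hzp hzq
    by_contra hcon
    have : z ∈ (P.image u)ᶜ := by
      rw [Finset.mem_compl, Finset.mem_image]
      exact hcon
    rw [hpq, Finset.mem_insert, Finset.mem_singleton] at this
    exact this.elim hzp hzq
  obtain ⟨i, j, hpi, hqi, hpj, hqj, z, hzi, hzj⟩ := cube p q
  have hbuild : ∀ i : Fin 12, p ∉ vert i → q ∉ vert i →
      ∃ m : α → ℤ, Quad M bar E m ∧ ∀ z ∈ P, (m z ≠ 0 ↔ u z ∈ vert i) := by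
    intro i hp hq
    have hv : ∀ z ∈ vert i, ∃ a ∈ P, u a = z := fun z hz =>
      hsurj z (fun h' => hp (h' ▸ hz)) (fun h' => hq (h' ▸ hz))
    obtain ⟨a, ha, hua⟩ := hv (par i).1.1 (by simp [vert])
    obtain ⟨c, hc, huc⟩ := hv (par i).1.2 (by simp [vert])
    obtain ⟨d, hd, hud⟩ := hv (par i).2.1 (by simp [vert])
    obtain ⟨f, hf, huf⟩ := hv (par i).2.2 (by simp [vert])
    have hvert : vert i = [u a, u c, u d, u f] := by
      rw [hua, huc, hud, huf]
      rfl
    have hnd : [a, c, d, f].Nodup := by
      have h3 := par_nodup i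
      rw [hvert] at h3
      have h4 : (([a, c, d, f] : List α).map u).Nodup := h3
      exact List.Nodup.of_map u h4
    have hsum := par_sum i
    rw [← hua, ← huc, ← hud, ← huf] at hsum
    have e1 : E a g1 + E c g1 = E d g1 + E f g1 := by
      have := hsum.1
      simp only [u] at this
      rwa [hsg a ha, hsg c hc, hsg d hd, hsg f hf] at this
    have e2 : E a g2 + E c g2 = E d g2 + E f g2 := by
      have := hsum.2.1
      simp only [u] at this
      rwa [hsg a ha, hsg c hc, hsg d hd, hsg f hf] at this
    have e3 : E a g3 + E c g3 = E d g3 + E f g3 := by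
      have := hsum.2.2
      simp only [u] at this
      rwa [hsg a ha, hsg c hc, hsg d hd, hsg f hf] at this
    have hrel : ∀ g, E a g + E c g = E d g + E f g := by
      have h3 := hbZ (dd a c d f) (by
        intro g hg
        rw [sum_dd ha hc hd hf (fun z => E z g)]
        by_cases hg1 : g = 1
        · rw [hg1, hP1 a ha, hP1 c hc, hP1 d hd, hP1 f hf]
          norm_num
        · have hg' : g ∈ b' := Finset.mem_erase.2 ⟨hg1, hg⟩
          rw [hb3, Finset.mem_insert, Finset.mem_insert, Finset.mem_singleton] at hg'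
          rcases hg' with rfl | rfl | rfl
          · linarith
          · linarith
          · linarith)
      intro g
      have h4 := h3 g
      rw [sum_dd ha hc hd hf (fun z => E z g)] at h4
      linarith
    obtain ⟨m, hm, hm'⟩ := S.quad_of ha hc hd hf hnd hrel
    refine ⟨m, hm, ?_⟩
    intro z hz
    rw [hm' z hz, hvert]
    simp only [List.mem_cons, List.not_mem_nil, or_false]
    constructor
    · rintro (rfl | rfl | rfl | rfl) <;> simp
    · rintro (h3 | h3 | h3 | h3)
      · exact Or.inl (huinj hz ha h3)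
      · exact Or.inr (Or.inl (huinj hz hc h3))
      · exact Or.inr (Or.inr (Or.inl (huinj hz hd h3)))
      · exact Or.inr (Or.inr (Or.inr (huinj hz hf h3)))
  obtain ⟨n1, hn1, hn1'⟩ := hbuild i hpi hqi
  obtain ⟨n2, hn2, hn2'⟩ := hbuild j hpj hqj
  obtain ⟨a, ha, rfl⟩ := hsurj z (fun h' => hpi (h' ▸ hzi)) (fun h' => hqi (h' ▸ hzi))
  have h3 : n1 a ≠ 0 := (hn1' a ha).2 hzi
  have h4 : n2 a = 0 := by
    by_contra h'
    exact hzj ((hn2' a ha).1 h')
  refine ⟨n1, n2, hn1, hn2, ?_, ?_⟩
  · intro h'
    apply h3
    rw [← h', h4]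
  · intro h'
    apply h3
    have := congrFun h' a
    rw [h4, Pi.neg_apply] at this
    omega

end Pool.Agent.Lib.MP81632f.Mk6
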