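import Pool.Agent.Lib.MP_81632f_ag.Mk6.Fin
import Pool.Agent.Lib.MP_81632f_ag.Mk6.Rank

/-! # Ordinary Weil numbers: the theorem -/

namespace Pool.Agent.Lib.MP81632f.Mk6

open NumberField IsDedekindDomain Mk
open scoped Classical

/-- **Theorem.** -/
theorem gen_ord {L : Type} [Field L] [NumberField L] [IsGalois ℚ L]
    {v : HeightOneSpectrum (𝓞 L)} {p e : ℕ} {M : Finset L} {s : Multiset L}
    (hp : p.Prime) (he : 0 < e) (hv : (p : 𝓞 L) ∈ v.asIdeal)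
    (hW : ∀ a ∈ M, IsWeil (p ^ e) a ∧ IsOrd v (p ^ e) a)
    (hG : ∀ g : L ≃ₐ[ℚ] L, ∀ a ∈ M, g a ∈ M) (hc : M.card ≤ 12) (hbad : ¬ IsBad (p ^ e) M)
    (hs : ∀ a ∈ s, a ∈ M ∨ (IsWeil (p ^ e) a ∧ IsSS (p ^ e) a))
    (h51 : M.card = 12 → (∃ a ∈ M, (conj a).card = 10) → ∀ a ∈ M, s.count a ≤ 2)
    (hT : IsTate (p ^ e) s) : Gen v (p ^ e) s :=
  gen_ordinary hp he hv (fun _ _ h hM _ _ h1 h2 h3 => h.sys.rank hM h1 h2 h3) hW hG hc hbad hs h51 hT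

end Pool.Agent.Lib.MP81632f.Mk6
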