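import Pool.Agent.Lib.MP_81632f_ag.Mk6.Ctx

/-! # Multisets and odd functions -/

namespace Pool.Agent.Lib.MP81632f.Mk6

open NumberField IsDedekindDomain Mk
open scoped Classical

variable {L : Type} [Field L] [NumberField L]
variable {v : HeightOneSpectrum (𝓞 L)} {r : ℕ} {M : Finset L}

/-- the odd function of a multiset -/
noncomputable def nf (r : ℕ) (M : Finset L) (s : Multiset L) (a : L) : ℤ :=
  if a ∈ M then (s.count a : ℤ) - s.count (br r a) else 0

/-- the positive part of a function -/
noncomputable def ms (M : Finset L) (n : L → ℤ) : Multiset L := ∑ a ∈ M, (n a).toNat • {a}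

omit [NumberField L] in
theorem count_ms (n : L → ℤ) (a : L) : (ms M n).count a = if a ∈ M then (n a).toNat else 0 := by
  unfold ms
  rw [Multiset.count_sum']
  by_cases ha : a ∈ M
  · rw [if_pos ha, Finset.sum_eq_single_of_mem a ha]
    · rw [Multiset.count_nsmul, Multiset.count_singleton_self, mul_one]
    · intro b _ hb
      rw [Multiset.count_nsmul, Multiset.count_singleton, if_neg hb.symm, mul_zero]
  · rw [if_neg ha]
    apply Finset.sum_eq_zero
    intro b hb
    rw [Multiset.count_nsmul, Multiset.count_singleton,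
      if_neg (fun h' : a = b => ha (by rw [h']; exact hb)), mul_zero]

omit [NumberField L] in
theorem mem_ms {n : L → ℤ} {a : L} : a ∈ ms M n ↔ a ∈ M ∧ 0 < n a := by
  rw [← Multiset.count_pos, count_ms]
  split_ifs with h
  · rw [Int.pos_iff_toNat_pos]
    exact ⟨fun h' => ⟨h, h'⟩, fun h' => h'.2⟩
  · simp [h]

theorem br_br (hr : 0 < r) (a : L) : br r (br r a) = a := bb hr a

theorem Gen.add_sym [IsGalois ℚ L] (h : Ctx v r M) : ∀ (N : ℕ) (P : Multiset L), P.card = N →
    (∀ a ∈ P, a ∈ M) → (∀ a, P.count a = P.count (br r a)) → ∀ s : Multiset L,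
    (Gen v r s → Gen v r (s + P)) ∧ (Gen v r (s + P) → Gen v r s) := by
  intro N
  induction N using Nat.strong_induction_on with
  | _ N IH =>
  intro P hN hP hsym s
  by_cases h0 : P = 0
  · rw [h0, add_zero]
    exact ⟨id, id⟩
  obtain ⟨a, ha⟩ := Multiset.exists_mem_of_ne_zero h0
  have haM := hP a ha
  have hba : br r a ∈ P := by
    rw [← Multiset.count_pos, ← hsym a, Multiset.count_pos]
    exact ha
  have hbM := hP _ hba
  have hne : br r a ≠ a := h.sys.bar_ne haM
  have hba' : br r a ∈ P.erase a := (Multiset.mem_erase_of_ne hne).2 hba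
  set Q := (P.erase a).erase (br r a) with hQ
  have hPQ : P = Q + {a, br r a} := by
    rw [hQ]
    have e1 : P = a ::ₘ (br r a ::ₘ (P.erase a).erase (br r a)) := by
      rw [Multiset.cons_erase hba', Multiset.cons_erase ha]
    conv_lhs => rw [e1]
    rw [add_comm, Multiset.insert_eq_cons, Multiset.cons_add, Multiset.singleton_add]
  have hcard : Q.card < N := by
    have := congrArg Multiset.card hPQ
    rw [Multiset.card_add] at this
    simp only [Multiset.insert_eq_cons, Multiset.card_cons, Multiset.card_singleton] at this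
    omega
  have hQM : ∀ x ∈ Q, x ∈ M := fun x hx => hP x (by rw [hPQ]; exact Multiset.mem_add.2 (Or.inl hx))
  have hpair : ∀ x, ({a, br r a} : Multiset L).count x = ({a, br r a} : Multiset L).count (br r x) := by
    intro x
    simp only [Multiset.insert_eq_cons, Multiset.count_cons, Multiset.count_singleton]
    have e1 : (br r x = a) ↔ (x = br r a) := by
      constructor
      · intro h'; rw [← h', br_br h.hr]
      · intro h'; rw [h', br_br h.hr]
    have e2 : (br r x = br r a) ↔ (x = a) := by
      constructor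
      · intro h'
        have := congrArg (br r) h'
        rwa [br_br h.hr, br_br h.hr] at this
      · intro h'; rw [h']
    simp only [e1, e2]
    omega
  have hQs : ∀ x, Q.count x = Q.count (br r x) := by
    intro x
    have e1 := hsym x
    rw [hPQ, Multiset.count_add, Multiset.count_add, hpair x] at e1
    omega
  have hIH := IH Q.card hcard Q rfl hQM hQs s
  have hb := bal_bar h.hr ((h.weil a haM).ne_zero h.hr)
  have hw1 := h.weil a haM
  have hw2 := h.weil _ hbM
  constructor
  · intro hs
    rw [hPQ, ← add_assoc]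
    exact Gen.add r _ _ (hIH.1 hs) (Gen.pair r a (br r a) hw1 hw2 hb)
  · intro hs
    rw [hPQ, ← add_assoc] at hs
    exact hIH.2 (Gen.remove r _ a (br r a) hw1 hw2 hb hs)

theorem gen_congr [IsGalois ℚ L] (h : Ctx v r M) {s t : Multiset L} (hs : ∀ a ∈ s, a ∈ M)
    (ht : ∀ a ∈ t, a ∈ M) (hst : ∀ a ∈ M, (s.count a : ℤ) - s.count (br r a) =
      t.count a - t.count (br r a)) (hg : Gen v r s) : Gen v r t := by
  have hall : ∀ a, (s.count a : ℤ) - s.count (br r a) = t.count a - t.count (br r a) := by
    intro a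
    by_cases ha : a ∈ M
    · exact hst a ha
    · have hb : br r a ∉ M := by
        intro hb
        apply ha
        have := h.sys.bar_mem _ hb
        rwa [br_br h.hr] at this
      rw [Multiset.count_eq_zero_of_notMem (fun h' => ha (hs a h')),
        Multiset.count_eq_zero_of_notMem (fun h' => ha (ht a h')),
        Multiset.count_eq_zero_of_notMem (fun h' => hb (hs _ h')),
        Multiset.count_eq_zero_of_notMem (fun h' => hb (ht _ h'))]
  have h1 : s + (s ∪ t - s) = s ∪ t := add_tsub_cancel_of_le Multiset.le_union_left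
  have h2 : t + (s ∪ t - t) = s ∪ t := add_tsub_cancel_of_le Multiset.le_union_right
  have hMu : ∀ a ∈ s ∪ t, a ∈ M := by
    intro a ha
    rcases Multiset.mem_union.1 ha with h' | h'
    · exact hs a h'
    · exact ht a h'
  have k1 := Gen.add_sym h _ (s ∪ t - s) rfl
    (fun a ha => hMu a (Multiset.mem_of_le (Multiset.sub_le_self _ _) ha))
    (by
      intro a
      rw [Multiset.count_sub, Multiset.count_sub, Multiset.count_union, Multiset.count_union]
      have := hall a
      omega) s
  have k2 := Gen.add_sym h _ (s ∪ t - t) rfl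
    (fun a ha => hMu a (Multiset.mem_of_le (Multiset.sub_le_self _ _) ha))
    (by
      intro a
      rw [Multiset.count_sub, Multiset.count_sub, Multiset.count_union, Multiset.count_union]
      have := hall a
      omega) t
  rw [h1] at k1
  rw [h2] at k2
  exact k2.2 (k1.1 hg)

/-- the function of a balanced multiset is a relation -/
theorem Ctx.rel_nf [IsGalois ℚ L] (h : Ctx v r M) {s : Multiset L} (hs : ∀ a ∈ s, a ∈ M)
    (hX : ∀ g, XS r v s g = 0) : Rel M (br r) (Eo v) (nf r M s) where
  out a ha := if_neg ha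
  odd a ha := by
    unfold nf
    rw [if_pos ha, if_pos (h.sys.bar_mem a ha), br_br h.hr]
    ring
  rel g := by
    have h1 := hX g
    rw [h.XS_eq hs] at h1
    have hq := h.q_pos
    have h2 : ∑ a ∈ M, (s.count a : ℤ) * Eo v a g = 0 := by
      rcases mul_eq_zero.1 h1 with h' | h'
      · exact absurd h' hq.ne'
      · exact h'
    have h3 : ∑ a ∈ M, (s.count (br r a) : ℤ) * Eo v a g = 0 := by
      have e1 := h.sys.sum_bar (fun a => (s.count a : ℤ) * Eo v a g)
      rw [h2] at e1
      rw [← neg_eq_zero, ← Finset.sum_neg_distrib, ← e1]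
      apply Finset.sum_congr rfl
      intro a ha
      rw [h.sys.neg a ha]
      ring
    have h4 : ∑ a ∈ M, nf r M s a * Eo v a g =
        ∑ a ∈ M, (s.count a : ℤ) * Eo v a g - ∑ a ∈ M, (s.count (br r a) : ℤ) * Eo v a g := by
      rw [← Finset.sum_sub_distrib]
      apply Finset.sum_congr rfl
      intro a ha
      unfold nf
      rw [if_pos ha]
      ring
    rw [h4, h2, h3, sub_zero]

/-- the size of the positive part -/
theorem Ctx.card_ms [IsGalois ℚ L] (h : Ctx v r M) {n : L → ℤ} (hn : Rel M (br r) (Eo v) n) :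
    2 * ((ms M n).card : ℤ) = nu M n := by
  have e1 : ((ms M n).card : ℤ) = ∑ a ∈ M, ((n a).toNat : ℤ) := by
    unfold ms
    rw [Multiset.card_sum]
    push_cast
    apply Finset.sum_congr rfl
    intro a _
    rw [Multiset.card_nsmul, Multiset.card_singleton, mul_one]
  have e2 := h.sys.sum_bar (fun a => ((n a).toNat : ℤ))
  have e3 : ∑ a ∈ M, |n a| = ∑ a ∈ M, ((n a).toNat : ℤ) + ∑ a ∈ M, ((n (br r a)).toNat : ℤ) := by
    rw [← Finset.sum_add_distrib]
    apply Finset.sum_congr rfl
    intro a ha
    rw [hn.odd a ha]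
    rcases abs_cases (n a) with ⟨h1, h2⟩ | ⟨h1, h2⟩ <;> rw [h1] <;> omega
  unfold nu
  rw [e3, e2, e1]
  ring

theorem Ctx.XS_ms [IsGalois ℚ L] (h : Ctx v r M) {n : L → ℤ} (hn : Rel M (br r) (Eo v) n)
    (g : L ≃ₐ[ℚ] L) : XS r v (ms M n) g = 0 := by
  rw [h.XS_eq (fun a ha => (mem_ms.1 ha).1)]
  have e0 : ∀ a ∈ M, ((ms M n).count a : ℤ) = ((n a).toNat : ℤ) := by
    intro a ha
    rw [count_ms, if_pos ha]
  have e1 : ∑ a ∈ M, ((ms M n).count a : ℤ) * Eo v a g = ∑ a ∈ M, ((n a).toNat : ℤ) * Eo v a g :=
    Finset.sum_congr rfl (fun a ha => by rw [e0 a ha])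
  have e2 := h.sys.sum_bar (fun a => ((n a).toNat : ℤ) * Eo v a g)
  have e3 : ∑ a ∈ M, n a * Eo v a g = ∑ a ∈ M, ((n a).toNat : ℤ) * Eo v a g +
      ∑ a ∈ M, ((n (br r a)).toNat : ℤ) * Eo v (br r a) g := by
    rw [← Finset.sum_add_distrib]
    apply Finset.sum_congr rfl
    intro a ha
    rw [hn.odd a ha, h.sys.neg a ha]
    have : ((n a).toNat : ℤ) - ((-n a).toNat : ℤ) = n a := by omega
    linear_combination -(Eo v a g) * this
  rw [hn.rel g, e2] at e3
  rw [e1, show ∑ a ∈ M, ((n a).toNat : ℤ) * Eo v a g = 0 by omega, mul_zero]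

end Pool.Agent.Lib.MP81632f.Mk6
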