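import Pool.Agent.Lib.MP_81632f_ag.Mk6.Abs

/-! # Two different quadruples -/

namespace Pool.Agent.Lib.MP81632f.Mk6

variable {G α : Type} [Group G] [DecidableEq α] [MulAction G α]
variable {M : Finset α} {bar : α → α} {E : α → G → ℤ}

/-- quadruples -/
structure Quad (M : Finset α) (bar : α → α) (E : α → G → ℤ) (n : α → ℤ) : Prop where
  rel : Rel M bar E n
  eight : nu M n = 8

/-- the bad configuration -/
def Bad (G : Type) [Group G] [MulAction G α] (M : Finset α) (bar : α → α) (E : α → G → ℤ) : Prop :=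
  ∃ a ∈ M, ∃ b ∈ M, ∃ c ∈ M, ∃ d ∈ M, (∀ g : G, E a g + E b g + E c g + E d g = 0) ∧
    a ≠ bar b ∧ a ≠ bar c ∧ a ≠ bar d ∧ (∃ J : Finset α, J.card ≤ 4 ∧ ∀ g : G, g • c ∈ J) ∧
    ∃ J : Finset α, J.card ≤ 4 ∧ ∀ g : G, g • d ∈ J

/-- the support -/
def supp (M : Finset α) (n : α → ℤ) : Finset α := M.filter (fun a => n a ≠ 0)

theorem mem_supp {n : α → ℤ} {a : α} : a ∈ supp M n ↔ a ∈ M ∧ n a ≠ 0 := Finset.mem_filter

theorem Quad.neg {n : α → ℤ} (h : Quad M bar E n) : Quad M bar E (-n) :=
  ⟨h.rel.neg, by rw [nu_neg]; exact h.eight⟩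

variable (S : Sys M bar E)
include S

theorem Sys.quad_trans (k : G) {n : α → ℤ} (h : Quad M bar E n) :
    Quad M bar E (fun a => n (k • a)) :=
  ⟨S.trans k h.rel, by rw [S.nu_trans]; exact h.eight⟩

theorem Sys.quad_cases {n : α → ℤ} (h : Quad M bar E n) (a : α) : n a = 0 ∨ n a = 1 ∨ n a = -1 := by
  have := S.le_one h.rel h.eight a
  rw [abs_le] at this
  omega

theorem Sys.card_supp {n : α → ℤ} (h : Quad M bar E n) : ((supp M n).card : ℤ) = 8 := by
  rw [← h.eight]
  unfold nu supp
  rw [Finset.card_filter]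
  push_cast
  apply Finset.sum_congr rfl
  intro a _
  rcases S.quad_cases h a with h1 | h1 | h1 <;> rw [h1] <;> simp

theorem Sys.quad_sum {n n' : α → ℤ} (h : Quad M bar E n) (h' : Quad M bar E n') :
    nu M (n - n') + nu M (n + n') = 2 * ((supp M n ∪ supp M n').card : ℤ) := by
  have e : ((supp M n ∪ supp M n').card : ℤ) = ∑ a ∈ M, (if n a ≠ 0 ∨ n' a ≠ 0 then (1 : ℤ) else 0) := by
    unfold supp
    rw [← Finset.filter_or, Finset.card_filter]
    push_cast
    rfl
  rw [e, Finset.mul_sum]
  unfold nu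
  rw [← Finset.sum_add_distrib]
  apply Finset.sum_congr rfl
  intro a _
  rw [Pi.sub_apply, Pi.add_apply]
  rcases S.quad_cases h a with h1 | h1 | h1 <;> rcases S.quad_cases h' a with h2 | h2 | h2 <;>
    rw [h1, h2] <;> norm_num

theorem Sys.card_union {n n' : α → ℤ} (h : Quad M bar E n) (h' : Quad M bar E n') :
    (supp M n ∪ supp M n').card + (supp M n ∩ supp M n').card = 16 := by
  have h1 := Finset.card_union_add_card_inter (supp M n) (supp M n')
  have h2 := S.card_supp h
  have h3 := S.card_supp h'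
  omega

/-- quadruples with the same support agree up to sign -/
theorem Sys.quad_eq {n n' : α → ℤ} (h : Quad M bar E n) (h' : Quad M bar E n')
    (hs : supp M n = supp M n') : n' = n ∨ n' = -n := by
  by_contra hcon
  rw [not_or] at hcon
  have hu : n - n' ≠ 0 := fun h0 => hcon.1 (sub_eq_zero.1 h0).symm
  have hv : n + n' ≠ 0 := fun h0 => hcon.2 (eq_neg_of_add_eq_zero_right h0)
  have h1 := S.nu_ge (h.rel.sub h'.rel) hu
  have h2 := S.nu_ge (h.rel.add h'.rel) hv
  have h3 := S.quad_sum h h'
  have h4 := S.card_supp h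
  rw [← hs, Finset.union_self] at h3
  have h5 : nu M (n - n') = 8 := by omega
  obtain ⟨a, ha⟩ : ∃ a, (n - n') a ≠ 0 := by
    by_contra hh
    apply hu
    ext a
    by_contra h''
    exact hh ⟨a, h''⟩
  have h6 := S.le_one (h.rel.sub h'.rel) h5 a
  rw [Pi.sub_apply] at ha h6
  have haM : a ∈ M := by
    by_contra hc
    rw [h.rel.out a hc, h'.rel.out a hc] at ha
    exact ha rfl
  have h7 : n a ≠ 0 ↔ n' a ≠ 0 := by
    have e1 := mem_supp (M := M) (n := n) (a := a)
    have e2 := mem_supp (M := M) (n := n') (a := a)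
    rw [hs] at e1
    tauto
  rw [abs_le] at h6
  rcases S.quad_cases h a with e1 | e1 | e1 <;> rcases S.quad_cases h' a with e2 | e2 | e2 <;>
    omega

variable (hM : M.card ≤ 12)
include hM

/-- the common support of two different quadruples has four elements -/
theorem Sys.card_inter {n n' : α → ℤ} (h : Quad M bar E n) (h' : Quad M bar E n')
    (h1 : n' ≠ n) (h2 : n' ≠ -n) :
    (supp M n ∩ supp M n').card = 4 ∧ supp M n ∪ supp M n' = M := by
  have hu : n - n' ≠ 0 := fun h0 => h1 (sub_eq_zero.1 h0).symm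
  have hv : n + n' ≠ 0 := fun h0 => h2 (eq_neg_of_add_eq_zero_right h0)
  have k1 := S.nu_ge (h.rel.sub h'.rel) hu
  have k2 := S.nu_ge (h.rel.add h'.rel) hv
  obtain ⟨c1, hc1⟩ := S.nu_dvd (h.rel.sub h'.rel)
  obtain ⟨c2, hc2⟩ := S.nu_dvd (h.rel.add h'.rel)
  have k3 := S.quad_sum h h'
  have k4 := S.card_union h h'
  have hsub : supp M n ∪ supp M n' ⊆ M :=
    Finset.union_subset (Finset.filter_subset _ _) (Finset.filter_subset _ _)
  have k5 := Finset.card_le_card hsub
  have k6 : (supp M n ∩ supp M n').card ≤ 8 := by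
    have := Finset.card_le_card (Finset.inter_subset_left (s₁ := supp M n) (s₂ := supp M n'))
    have h3 := S.card_supp h
    omega
  -- the elements where exactly one of the two is not zero
  have key : ∀ n'' : α → ℤ, nu M n'' = 8 → (∀ a, |n'' a| ≤ 1) →
      (∀ a ∈ supp M n ∩ supp M n', n'' a = 0) → (∀ a ∈ M, a ∉ supp M n ∪ supp M n' → n'' a = 0) →
      8 ≤ (supp M n ∪ supp M n').card - (supp M n ∩ supp M n').card := by
    intro n'' e1 e2 e3 e4
    have e5 : nu M n'' ≤ (((supp M n ∪ supp M n') \ (supp M n ∩ supp M n')).card : ℤ) := by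
      unfold nu
      rw [← Finset.sum_subset (Finset.sdiff_subset.trans hsub)
        (f := fun a => |n'' a|)]
      · calc ∑ a ∈ (supp M n ∪ supp M n') \ (supp M n ∩ supp M n'), |n'' a|
            ≤ ∑ a ∈ (supp M n ∪ supp M n') \ (supp M n ∩ supp M n'), (1 : ℤ) :=
              Finset.sum_le_sum (fun a _ => e2 a)
          _ = _ := by simp
      · intro a ha ha'
        rw [Finset.mem_sdiff, not_and_or, not_not] at ha'
        rcases ha' with ha' | ha'
        · rw [e4 a ha ha', abs_zero]
        · rw [e3 a ha', abs_zero]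
    have e6 : ((supp M n ∪ supp M n') \ (supp M n ∩ supp M n')).card =
        (supp M n ∪ supp M n').card - (supp M n ∩ supp M n').card := by
      rw [Finset.card_sdiff_of_subset]
      exact Finset.inter_subset_left.trans Finset.subset_union_left
    rw [e6] at e5
    omega
  have hout : ∀ a, a ∉ supp M n ∪ supp M n' → a ∈ M → n a = 0 ∧ n' a = 0 := by
    intro a ha haM
    rw [Finset.mem_union, mem_supp, mem_supp] at ha
    constructor
    · by_contra h0
      exact ha (Or.inl ⟨haM, h0⟩)
    · by_contra h0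
      exact ha (Or.inr ⟨haM, h0⟩)
  have hin : ∀ a ∈ supp M n ∩ supp M n', n a ≠ 0 ∧ n' a ≠ 0 := by
    intro a ha
    rw [Finset.mem_inter, mem_supp, mem_supp] at ha
    exact ⟨ha.1.2, ha.2.2⟩
  have hA : nu M (n - n') = 8 → 8 ≤ (supp M n ∪ supp M n').card - (supp M n ∩ supp M n').card := by
    intro h8
    have e2 := S.le_one (h.rel.sub h'.rel) h8
    apply key _ h8 e2
    · intro a ha
      have e3 := e2 a
      obtain ⟨e4, e5⟩ := hin a ha
      rw [Pi.sub_apply] at e3 ⊢
      rw [abs_le] at e3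
      rcases S.quad_cases h a with f1 | f1 | f1 <;> rcases S.quad_cases h' a with f2 | f2 | f2 <;>
        omega
    · intro a haM ha
      obtain ⟨e4, e5⟩ := hout a ha haM
      rw [Pi.sub_apply, e4, e5, sub_zero]
  have hB : nu M (n + n') = 8 → 8 ≤ (supp M n ∪ supp M n').card - (supp M n ∩ supp M n').card := by
    intro h8
    have e2 := S.le_one (h.rel.add h'.rel) h8
    apply key _ h8 e2
    · intro a ha
      have e3 := e2 a
      obtain ⟨e4, e5⟩ := hin a ha
      rw [Pi.add_apply] at e3 ⊢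
      rw [abs_le] at e3
      rcases S.quad_cases h a with f1 | f1 | f1 <;> rcases S.quad_cases h' a with f2 | f2 | f2 <;>
        omega
    · intro a haM ha
      obtain ⟨e4, e5⟩ := hout a ha haM
      rw [Pi.add_apply, e4, e5, add_zero]
  have h12 : (supp M n ∪ supp M n').card = 12 := by
    by_contra hne
    have h11 : (supp M n ∪ supp M n').card ≤ 11 := by omega
    rcases (show nu M (n - n') = 8 ∨ nu M (n + n') = 8 by omega) with h8 | h8
    · have := hA h8
      omega
    · have := hB h8
      omega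
  refine ⟨by omega, ?_⟩
  apply Finset.eq_of_subset_of_card_le hsub
  omega

end Pool.Agent.Lib.MP81632f.Mk6
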