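import Pool.Agent.Lib.MP_81632f_ag.Mk6.Semi
import Pool.Agent.Lib.MP_81632f_ag.Mk6.Quad

/-! # Semi-invariant relations: generation -/

namespace Pool.Agent.Lib.MP81632f.Mk6

variable {G α : Type} [Group G] [DecidableEq α] [MulAction G α]
variable {M : Finset α} {bar : α → α} {E : α → G → ℤ}

theorem blk_num (o : ℕ) (P : ℤ) (h : (4 : ℤ) ∣ (o : ℤ) - P) (h2 : |P| ≤ o) (h3 : |P| = o → o = 2)
    (h4 : 2 ∣ o) (h5 : 2 ≤ o) (h6 : o ≤ 10) (h0 : P ≠ 0) :
    (o = 2 ∧ |P| = 2) ∨ (o = 6 ∧ |P| = 2) ∨ (o = 8 ∧ |P| = 4) ∨ (o = 10 ∧ |P| = 2) ∨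
      (o = 10 ∧ |P| = 6) := by
  obtain ⟨d, rfl⟩ := h4
  have hd : d ≤ 5 := by omega
  have hd' : 1 ≤ d := by omega
  rcases abs_cases P with ⟨h7, h8⟩ | ⟨h7, h8⟩ <;> rw [h7] at h2 h3 ⊢ <;> interval_cases d <;>
    norm_num at h h2 h3 ⊢ <;> omega

/-- the generated relations -/
def Cl (M : Finset α) (bar : α → α) (E : α → G → ℤ) : AddSubmonoid (α → ℤ) :=
  AddSubmonoid.closure {w | IsGen M bar E w}

theorem IsGen.neg {w : α → ℤ} (h : IsGen M bar E w) : IsGen M bar E (-w) where
  rel := h.rel.neg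
  semi k := by
    rcases h.semi k with h1 | h1
    · left; intro a; rw [Pi.neg_apply, Pi.neg_apply, h1]
    · right; intro a; rw [Pi.neg_apply, Pi.neg_apply, h1]
  nu := by rw [nu_neg]; exact h.nu

theorem IsGen.zsmul_mem {w : α → ℤ} (h : IsGen M bar E w) (z : ℤ) : z • w ∈ Cl M bar E := by
  have h1 : w ∈ Cl M bar E := AddSubmonoid.subset_closure h
  have h2 : -w ∈ Cl M bar E := AddSubmonoid.subset_closure h.neg
  rcases le_total 0 z with hz | hz
  · obtain ⟨k, rfl⟩ := Int.eq_ofNat_of_zero_le hz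
    rw [natCast_zsmul]
    exact AddSubmonoid.nsmul_mem _ h1 k
  · obtain ⟨k, hk⟩ := Int.eq_ofNat_of_zero_le (neg_nonneg.2 hz)
    have : z • w = k • (-w) := by
      rw [← natCast_zsmul, ← hk, neg_smul, smul_neg, neg_neg]
    rw [this]
    exact AddSubmonoid.nsmul_mem _ h2 k

variable (S : Sys M bar E)
include S

variable {n : α → ℤ} {O O' : Finset α} {κ κ' : α → ℤ} {C C' : ℤ}

theorem Sys.nu_blk (B : Blk M bar G n O κ C) : nu M κ = O.card := by
  have : (O.card : ℤ) = ∑ b ∈ M, if b ∈ O then (1 : ℤ) else 0 := by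
    rw [Finset.sum_ite_mem, Finset.inter_eq_right.2 B.sub, Finset.sum_const, nsmul_eq_mul, mul_one]
  rw [this]
  apply Finset.sum_congr rfl
  intro b _
  by_cases hb : b ∈ O
  · rw [if_pos hb]
    rcases B.one b hb with h | h <;> rw [h] <;> simp
  · rw [if_neg hb, B.zero b hb, abs_zero]

/-- a block with vanishing value is a generator -/
theorem Sys.blk_gen (hM : M.card ≤ 12) (hs : SemiInv G n) (B : Blk M bar G n O κ C)
    (h0 : PP M E κ 1 = 0) : IsGen M bar E κ := by
  have h1 := S.comb hs B B 1 0 (by rw [h0]; ring)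
  rw [one_smul, zero_smul, add_zero] at h1
  refine ⟨h1.1, h1.2, ?_⟩
  have hne : κ ≠ 0 := by
    intro hh
    obtain ⟨b, hb⟩ := B.ne
    rcases B.one b hb with h | h <;> rw [hh] at h <;> simp at h
  have h2 := S.nu_ge h1.1 hne
  obtain ⟨c, hc⟩ := S.nu_dvd h1.1
  have h3 := S.nu_blk B
  have h4 := Finset.card_le_card B.sub
  omega

/-- two disjoint blocks with nonvanishing values -/
theorem Sys.two_blk (hs : SemiInv G n) (B : Blk M bar G n O κ C)
    (B' : Blk M bar G n O' κ' C') (hd : Disjoint O O') (h0 : PP M E κ 1 ≠ 0)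
    (h0' : PP M E κ' 1 ≠ 0) (hle : O.card ≤ O'.card) (h12 : O.card + O'.card ≤ 12) :
    (∃ x y : ℤ, (y = 1 ∨ y = -1) ∧ IsGen M bar E (x • κ + y • κ') ∧
      (O'.card = 10 ∧ O.card = 2 ∨ 8 ≤ O.card + O'.card ∧ O.card ≠ 10 ∧ O'.card ≠ 10)) ∨
    (O.card = 2 ∧ O'.card = 10 ∧ |PP M E κ 1| = 2 ∧ |PP M E κ' 1| = 6) := by
  obtain ⟨⟨c, hc⟩, a2, a3, ⟨d, hd1⟩, a5⟩ := S.blk_cases hs B
  obtain ⟨⟨c', hc'⟩, b2, b3, ⟨d', hd1'⟩, b5⟩ := S.blk_cases hs B'
  set P := PP M E κ 1 with hP
  set P' := PP M E κ' 1 with hP'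
  have hne : ∀ x y : ℤ, (y = 1 ∨ y = -1) → x • κ + y • κ' ≠ 0 := by
    intro x y hy hh
    obtain ⟨b, hb⟩ := B'.ne
    have hbO : b ∉ O := Finset.disjoint_right.1 hd hb
    have := congrFun hh b
    rw [Pi.add_apply, Pi.smul_apply, Pi.smul_apply, B.zero b hbO, smul_zero, zero_add,
      smul_eq_mul, Pi.zero_apply] at this
    rcases B'.one b hb with h | h <;> rcases hy with h' | h' <;> rw [h, h'] at this <;> simp at this
  have hgen : ∀ x y : ℤ, (y = 1 ∨ y = -1) → x * P + y * P' = 0 →
      (|x| * O.card + |y| * O'.card = 8 ∨ |x| * O.card + |y| * O'.card = 12 ∨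
        |x| * O.card + |y| * O'.card = 4) → IsGen M bar E (x • κ + y • κ') := by
    intro x y hy hxy hnu
    have h1 := S.comb hs B B' x y hxy
    have h2 := S.nu_comb B B' hd x y
    refine ⟨h1.1, h1.2, ?_⟩
    rw [h2]
    rcases hnu with h | h | h
    · exact Or.inl h
    · exact Or.inr h
    · exfalso
      have := S.nu_ge h1.1 (hne x y hy)
      omega
  have hab : |P| = P ∨ |P| = -P := abs_choice P
  have hab' : |P'| = P' ∨ |P'| = -P' := abs_choice P'
  have hn1 := blk_num O.card P ⟨c, hc⟩ a2 a3 ⟨d, hd1⟩ a5 (by omega) h0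
  have hn2 := blk_num O'.card P' ⟨c', hc'⟩ b2 b3 ⟨d', hd1'⟩ b5 (by omega) h0'
  have hcases : (O.card = 2 ∧ O'.card = 2 ∧ |P| = 2 ∧ |P'| = 2) ∨
      (O.card = 2 ∧ O'.card = 6 ∧ |P| = 2 ∧ |P'| = 2) ∨
      (O.card = 2 ∧ O'.card = 8 ∧ |P| = 2 ∧ |P'| = 4) ∨
      (O.card = 2 ∧ O'.card = 10 ∧ |P| = 2 ∧ |P'| = 2) ∨
      (O.card = 2 ∧ O'.card = 10 ∧ |P| = 2 ∧ |P'| = 6) ∨
      (O.card = 6 ∧ O'.card = 6 ∧ |P| = 2 ∧ |P'| = 2) := by
    clear hc a2 a3 hd1 a5 hc' b2 b3 hd1' b5 hne hgen hab hab' h0 h0'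
    generalize |P| = u at *
    generalize |P'| = u' at *
    rcases hn1 with ⟨e1, e2⟩ | ⟨e1, e2⟩ | ⟨e1, e2⟩ | ⟨e1, e2⟩ | ⟨e1, e2⟩ <;>
      rcases hn2 with ⟨f1, f2⟩ | ⟨f1, f2⟩ | ⟨f1, f2⟩ | ⟨f1, f2⟩ | ⟨f1, f2⟩ <;>
      rw [e1, f1] at hle h12 <;> rw [e1, e2, f1, f2] <;>
      first | (exfalso; omega) | norm_num
  have hone : |(1 : ℤ)| = 1 := abs_one
  have hneg : |(-1 : ℤ)| = 1 := by rw [abs_neg, abs_one]
  have htwo : |(2 : ℤ)| = 2 := by norm_num
  have hntwo : |(-2 : ℤ)| = 2 := by norm_num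
  -- coefficients
  have hx1 : |P| = |P'| → ∃ x : ℤ, |x| = 1 ∧ x * P + 1 * P' = 0 := by
    intro hh
    rcases hab with h | h <;> rcases hab' with h' | h'
    · exact ⟨-1, hneg, by linarith⟩
    · exact ⟨1, hone, by linarith⟩
    · exact ⟨1, hone, by linarith⟩
    · exact ⟨-1, hneg, by linarith⟩
  have hx2 : 2 * |P| = |P'| → ∃ x : ℤ, |x| = 2 ∧ x * P + 1 * P' = 0 := by
    intro hh
    rcases hab with h | h <;> rcases hab' with h' | h'
    · exact ⟨-2, hntwo, by linarith⟩
    · exact ⟨2, htwo, by linarith⟩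
    · exact ⟨2, htwo, by linarith⟩
    · exact ⟨-2, hntwo, by linarith⟩
  rcases hcases with h | h | h | h | h | h
  · left
    obtain ⟨x, hx, hxy⟩ := hx1 (by omega)
    exfalso
    have h1 := S.comb hs B B' x 1 hxy
    have h2 := S.nu_comb B B' hd x 1
    rw [hx, hone, h.1, h.2.1] at h2
    have := S.nu_ge h1.1 (hne x 1 (Or.inl rfl))
    rw [h2] at this
    norm_num at this
  · left
    obtain ⟨x, hx, hxy⟩ := hx1 (by omega)
    refine ⟨x, 1, Or.inl rfl, hgen x 1 (Or.inl rfl) hxy ?_, Or.inr (by omega)⟩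
    rw [hx, hone, h.1, h.2.1]
    norm_num
  · left
    obtain ⟨x, hx, hxy⟩ := hx2 (by omega)
    refine ⟨x, 1, Or.inl rfl, hgen x 1 (Or.inl rfl) hxy ?_, Or.inr (by omega)⟩
    rw [hx, hone, h.1, h.2.1]
    norm_num
  · left
    obtain ⟨x, hx, hxy⟩ := hx1 (by omega)
    refine ⟨x, 1, Or.inl rfl, hgen x 1 (Or.inl rfl) hxy ?_, Or.inl (by omega)⟩
    rw [hx, hone, h.1, h.2.1]
    norm_num
  · right
    exact h
  · left
    obtain ⟨x, hx, hxy⟩ := hx1 (by omega)
    refine ⟨x, 1, Or.inl rfl, hgen x 1 (Or.inl rfl) hxy ?_, Or.inr (by omega)⟩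
    rw [hx, hone, h.1, h.2.1]
    norm_num

/-- the reduction with two blocks -/
theorem Sys.two_step (hM : M.card ≤ 12) (h : Rel M bar E n) (hs : SemiInv G n)
    (hb : (∃ x ∈ M, (orb G M x).card = 10) → ∀ a, |n a| ≤ 2)
    (IH : ∀ n' : α → ℤ, (supp M n').card < (supp M n).card → Rel M bar E n' → SemiInv G n' →
      ((∃ x ∈ M, (orb G M x).card = 10) → ∀ a, |n' a| ≤ 2) → n' ∈ Cl M bar E)
    (B : Blk M bar G n O κ C) (B' : Blk M bar G n O' κ' C') (hd : Disjoint O O')
    (h0 : PP M E κ 1 ≠ 0) (h0' : PP M E κ' 1 ≠ 0) (hle : O.card ≤ O'.card) : n ∈ Cl M bar E := by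
  have hun : O ∪ O' ⊆ M := Finset.union_subset B.sub B'.sub
  have hcu : (O ∪ O').card = O.card + O'.card := Finset.card_union_of_disjoint hd
  have h12 : O.card + O'.card ≤ 12 := by
    rw [← hcu]
    exact (Finset.card_le_card hun).trans hM
  rcases S.two_blk hs B B' hd h0 h0' hle h12 with ⟨x, y, hy, hg, hcase⟩ | hexc
  · set w := x • κ + y • κ' with hw
    set n' := n - (y * C') • w with hn'
    have hyy : y * y = 1 := by rcases hy with h | h <;> rw [h] <;> norm_num
    have hwO' : ∀ a ∈ O', w a = y * κ' a := by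
      intro a ha
      rw [hw, Pi.add_apply, Pi.smul_apply, Pi.smul_apply, B.zero a (Finset.disjoint_right.1 hd ha),
        smul_zero, zero_add, smul_eq_mul]
    have hw0 : ∀ a, a ∉ O → a ∉ O' → w a = 0 := by
      intro a ha ha'
      rw [hw, Pi.add_apply, Pi.smul_apply, Pi.smul_apply, B.zero a ha, B'.zero a ha']
      simp
    have hn'O' : ∀ a ∈ O', n' a = 0 := by
      intro a ha
      rw [hn', Pi.sub_apply, Pi.smul_apply, hwO' a ha, smul_eq_mul, B'.eq a ha]
      linear_combination -(C' * κ' a) * hyy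
    have hrel : Rel M bar E n' := h.sub (hg.rel.smul _)
    have hsemi : SemiInv G n' := by
      intro k
      rcases hs k with h1 | h1
      · left
        intro a
        simp only [hn', hw, Pi.sub_apply, Pi.smul_apply, Pi.add_apply, smul_eq_mul, h1 a,
          B.sgn k h1 a, B'.sgn k h1 a]
      · right
        intro a
        simp only [hn', hw, Pi.sub_apply, Pi.smul_apply, Pi.add_apply, smul_eq_mul, h1 a,
          B.sgn' k h1 a, B'.sgn' k h1 a]
        ring
    have hsupp : supp M n' ⊆ (supp M n) \ O' := by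
      intro a ha
      rw [mem_supp] at ha
      have haO' : a ∉ O' := fun h' => ha.2 (hn'O' a h')
      rw [Finset.mem_sdiff, mem_supp]
      refine ⟨⟨ha.1, ?_⟩, haO'⟩
      by_cases haO : a ∈ O
      · rw [B.eq a haO]
        have := B.pos
        rcases B.one a haO with h | h <;> rw [h] <;> omega
      · intro h'
        apply ha.2
        rw [hn', Pi.sub_apply, Pi.smul_apply, hw0 a haO haO', smul_zero, sub_zero, h']
    have hlt : (supp M n').card < (supp M n).card := by
      apply Finset.card_lt_card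
      refine ⟨hsupp.trans Finset.sdiff_subset, ?_⟩
      intro hh
      obtain ⟨a, ha⟩ := B'.ne
      have h1 : a ∈ supp M n := by
        rw [mem_supp]
        refine ⟨B'.sub ha, ?_⟩
        rw [B'.eq a ha]
        have := B'.pos
        rcases B'.one a ha with h | h <;> rw [h] <;> omega
      exact (Finset.mem_sdiff.1 (hsupp (hh h1))).2 ha
    have hfin : n' ∈ Cl M bar E → n ∈ Cl M bar E := by
      intro h1
      have : n = n' + (y * C') • w := by rw [hn', sub_add_cancel]
      rw [this]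
      exact AddSubmonoid.add_mem _ h1 (hg.zsmul_mem _)
    apply hfin
    rcases hcase with ⟨h10, h2⟩ | ⟨h8, hne1, hne2⟩
    · -- the block has ten elements: nothing is left
      have hMeq : O ∪ O' = M := by
        apply Finset.eq_of_subset_of_card_le hun
        rw [hcu]
        omega
      have : n' = 0 := by
        by_contra hne
        obtain ⟨a, ha⟩ : ∃ a, n' a ≠ 0 := by
          by_contra hh
          apply hne
          ext a
          by_contra h''
          exact hh ⟨a, h''⟩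
        have haM : a ∈ M := by
          by_contra h'
          exact ha (hrel.out a h')
        have haO : a ∈ O := by
          rw [← hMeq, Finset.mem_union] at haM
          rcases haM with h' | h'
          · exact h'
          · exact absurd (hn'O' a h') ha
        apply S.dominance hrel haM ha
        have hOeq : ({a, bar a} : Finset α) = O := by
          apply Finset.eq_of_subset_of_card_le
          · intro z hz
            rw [Finset.mem_insert, Finset.mem_singleton] at hz
            rcases hz with rfl | rfl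
            · exact haO
            · exact B.barO a haO
          · rw [h2, Finset.card_pair (S.bar_ne haM).symm]
        have e1 : nu M n' = ∑ z ∈ O, |n' z| := by
          unfold nu
          symm
          apply Finset.sum_subset B.sub
          intro z hz hz'
          rw [← hMeq, Finset.mem_union] at hz
          rw [hn'O' z (hz.resolve_left hz'), abs_zero]
        rw [e1, ← hOeq, Finset.sum_pair (S.bar_ne haM).symm, hrel.odd a haM, abs_neg]
        have := abs_nonneg (n' a)
        omega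
      rw [this]
      exact AddSubmonoid.zero_mem _
    · apply IH n' hlt hrel hsemi
      rintro ⟨z, hzM, hz⟩
      exfalso
      have hdis : ∀ {T : Finset α} {κ₀ : α → ℤ} {C₀ : ℤ}, Blk M bar G n T κ₀ C₀ → T.card ≠ 10 →
          Disjoint (orb G M z) T := by
        intro T κ₀ C₀ B₀ hT
        rw [Finset.disjoint_left]
        intro u hu huT
        apply hT
        rw [← B₀.tr u huT, S.orb_eq hu, hz]
      have h3 := hdis B hne1
      have h4 := hdis B' hne2
      have h5 : Disjoint (orb G M z) (O ∪ O') := Finset.disjoint_union_right.2 ⟨h3, h4⟩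
      have h6 := Finset.card_union_of_disjoint h5
      have h7 : orb G M z ∪ (O ∪ O') ⊆ M :=
        Finset.union_subset (fun u hu => (mem_orb.1 hu).1) hun
      have h8' := Finset.card_le_card h7
      omega
  · exfalso
    obtain ⟨h2, h10, hP, hP'⟩ := hexc
    have hMeq : O ∪ O' = M := by
      apply Finset.eq_of_subset_of_card_le hun
      rw [hcu]
      omega
    have hdec : ∀ a, n a = C * κ a + C' * κ' a := by
      intro a
      by_cases haO : a ∈ O
      · rw [B.eq a haO, B'.zero a (Finset.disjoint_left.1 hd haO)]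
        ring
      · by_cases haO' : a ∈ O'
        · rw [B'.eq a haO', B.zero a haO]
          ring
        · have : a ∉ M := by
            rw [← hMeq, Finset.mem_union]
            tauto
          rw [h.out a this, B.zero a haO, B'.zero a haO']
          ring
    have h1 := h.rel 1
    have e1 : ∑ a ∈ M, n a * E a 1 = C * PP M E κ 1 + C' * PP M E κ' 1 := by
      unfold PP
      rw [Finset.mul_sum, Finset.mul_sum, ← Finset.sum_add_distrib]
      apply Finset.sum_congr rfl
      intro a _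
      rw [hdec a]
      ring
    rw [e1] at h1
    obtain ⟨a, ha⟩ := B.ne
    obtain ⟨a', ha'⟩ := B'.ne
    have h2 := hb ⟨a', B'.sub ha', by rw [B'.tr a' ha', h10]⟩ a
    rw [B.eq a ha, abs_mul] at h2
    have h3 : |κ a| = 1 := by rcases B.one a ha with h | h <;> rw [h] <;> simp
    rw [h3, abs_of_pos B.pos] at h2
    have hC := B.pos
    have hC' := B'.pos
    have hab := abs_choice (PP M E κ 1)
    have hab' := abs_choice (PP M E κ' 1)
    clear hb IH hdec hMeq hcu hun e1
    generalize PP M E κ 1 = P at *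
    generalize PP M E κ' 1 = P' at *
    have h6 : P = 2 ∨ P = -2 := by omega
    have h7 : P' = 6 ∨ P' = -6 := by omega
    rcases h6 with h6 | h6 <;> rcases h7 with h7 | h7 <;> rw [h6, h7] at h1 <;> omega

/-- **Semi-invariant relations are generated.** -/
theorem Sys.semi_cl (hM : M.card ≤ 12) : ∀ (N : ℕ) (n : α → ℤ), (supp M n).card = N →
    Rel M bar E n → SemiInv G n → ((∃ x ∈ M, (orb G M x).card = 10) → ∀ a, |n a| ≤ 2) →
    n ∈ Cl M bar E := by
  intro N
  induction N using Nat.strong_induction_on with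
  | _ N IH =>
  intro n hN h hs hb
  have IH' : ∀ n' : α → ℤ, (supp M n').card < (supp M n).card → Rel M bar E n' → SemiInv G n' →
      ((∃ x ∈ M, (orb G M x).card = 10) → ∀ a, |n' a| ≤ 2) → n' ∈ Cl M bar E := by
    intro n' h1
    exact IH _ (hN ▸ h1) n' rfl
  by_cases hz : n = 0
  · rw [hz]
    exact AddSubmonoid.zero_mem _
  obtain ⟨a, ha⟩ : ∃ a, n a ≠ 0 := by
    by_contra hh
    apply hz
    ext a
    by_contra h''
    exact hh ⟨a, h''⟩
  obtain ⟨κ, B⟩ := S.exists_blk h hs ha
  -- a block with vanishing value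
  have hzero : ∀ (b : α) (κ₀ : α → ℤ), n b ≠ 0 → Blk M bar G n (orb G M b) κ₀ |n b| →
      PP M E κ₀ 1 = 0 → n ∈ Cl M bar E := by
    intro b κ₀ hb0 B₀ hP
    have hg := S.blk_gen hM hs B₀ hP
    set n' := n - |n b| • κ₀ with hn'
    have hO : ∀ x ∈ orb G M b, n' x = 0 := by
      intro x hx
      rw [hn', Pi.sub_apply, Pi.smul_apply, smul_eq_mul, B₀.eq x hx, sub_self]
    have hO' : ∀ x, x ∉ orb G M b → n' x = n x := by
      intro x hx
      rw [hn', Pi.sub_apply, Pi.smul_apply, B₀.zero x hx, smul_zero, sub_zero]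
    have hbM : b ∈ M := by
      by_contra h'
      exact hb0 (h.out b h')
    have hfin : n = n' + |n b| • κ₀ := by rw [hn', sub_add_cancel]
    rw [hfin]
    apply AddSubmonoid.add_mem _ _ (hg.zsmul_mem _)
    apply IH' n'
    · apply Finset.card_lt_card
      refine ⟨?_, ?_⟩
      · intro x hx
        rw [mem_supp] at hx ⊢
        refine ⟨hx.1, ?_⟩
        by_cases hxO : x ∈ orb G M b
        · exact absurd (hO x hxO) hx.2
        · rw [← hO' x hxO]
          exact hx.2
      · intro hh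
        have h1 : b ∈ supp M n := mem_supp.2 ⟨hbM, hb0⟩
        exact (mem_supp.1 (hh h1)).2 (hO b (S.mem_orb_self hbM))
    · exact h.sub (hg.rel.smul _)
    · intro k
      rcases hs k with h1 | h1
      · left
        intro x
        simp only [hn', Pi.sub_apply, Pi.smul_apply, h1 x, B₀.sgn k h1 x]
      · right
        intro x
        simp only [hn', Pi.sub_apply, Pi.smul_apply, h1 x, B₀.sgn' k h1 x, smul_eq_mul]
        ring
    · intro hex x
      by_cases hxO : x ∈ orb G M b
      · rw [hO x hxO, abs_zero]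
        norm_num
      · rw [hO' x hxO]
        exact hb hex x
  by_cases hP : PP M E κ 1 = 0
  · exact hzero a κ ha B hP
  -- a second block
  obtain ⟨b, hb0, hbO⟩ : ∃ b, n b ≠ 0 ∧ b ∉ orb G M a := by
    by_contra hh
    have hall : ∀ x, n x = |n a| * κ x := by
      intro x
      by_cases hx : x ∈ orb G M a
      · exact B.eq x hx
      · rw [B.zero x hx, mul_zero]
        by_contra h'
        exact hh ⟨x, h', hx⟩
    have h1 := h.rel 1
    have e1 : ∑ x ∈ M, n x * E x 1 = |n a| * PP M E κ 1 := by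
      unfold PP
      rw [Finset.mul_sum]
      apply Finset.sum_congr rfl
      intro x _
      rw [hall x]
      ring
    rw [e1] at h1
    rcases mul_eq_zero.1 h1 with h2 | h2
    · exact ha (abs_eq_zero.1 h2)
    · exact hP h2
  obtain ⟨κ', B'⟩ := S.exists_blk h hs hb0
  by_cases hP' : PP M E κ' 1 = 0
  · exact hzero b κ' hb0 B' hP'
  have hd : Disjoint (orb G M a) (orb G M b) := by
    rw [Finset.disjoint_left]
    intro x hx hx'
    apply hbO
    rw [← S.orb_eq hx, S.orb_eq hx']
    have hbM : b ∈ M := by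
      by_contra h'
      exact hb0 (h.out b h')
    exact S.mem_orb_self hbM
  rcases le_total (orb G M a).card (orb G M b).card with hle | hle
  · exact S.two_step hM h hs hb IH' B B' hd hP hP' hle
  · exact S.two_step hM h hs hb IH' B' B hd.symm hP' hP hle

end Pool.Agent.Lib.MP81632f.Mk6
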