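import Pool.Agent.Lib.MP_81632f_ag.Mk6.Defs
import Pool.Agent.Lib.MP_81632f_ag.Mk6.Semi2
import Pool.Agent.Lib.MP_81632f_ag.Mk.Vect

/-! # Ordinary Weil numbers as signed functions -/

namespace Pool.Agent.Lib.MP81632f.Mk6

open NumberField IsDedekindDomain Mk
open scoped Classical

variable {L : Type} [Field L] [NumberField L]

/-- the sign -/
noncomputable def Eo (v : HeightOneSpectrum (𝓞 L)) (a : L) (g : L ≃ₐ[ℚ] L) : ℤ :=
  if ord v (g a) = 0 then -1 else 1

/-- complex conjugation on Weil numbers -/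
noncomputable def br (r : ℕ) (a : L) : L := (r : L) ^ 2 / a

/-- the hypotheses on `M` -/
structure Ctx (v : HeightOneSpectrum (𝓞 L)) (r : ℕ) (M : Finset L) : Prop where
  hr : 0 < r
  hv : 0 < ord v (r : L)
  weil : ∀ a ∈ M, IsWeil r a
  ordi : ∀ a ∈ M, IsOrd v r a
  gal : ∀ g : L ≃ₐ[ℚ] L, ∀ a ∈ M, g a ∈ M
  sep : ∀ a ∈ M, ∀ b ∈ M, X r v a = X r v b → a = b

variable {v : HeightOneSpectrum (𝓞 L)} {r : ℕ} {M : Finset L}

theorem Ctx.q_pos (h : Ctx v r M) : 0 < ord v ((r : L) ^ 2) := by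
  rw [ord_q h.hr]
  have := h.hv
  omega

theorem Ctx.X_eq (h : Ctx v r M) {a : L} (ha : a ∈ M) (g : L ≃ₐ[ℚ] L) :
    X r v a g = ord v ((r : L) ^ 2) * Eo v a g := by
  have hq := h.q_pos
  unfold X Eo
  rcases h.ordi (g a) (h.gal g a ha) with h1 | h1
  · rw [if_pos h1, h1]
    ring
  · rw [h1, if_neg hq.ne']
    ring

variable [IsGalois ℚ L]

theorem Ctx.sys (h : Ctx v r M) : Sys (G := L ≃ₐ[ℚ] L) M (br r) (Eo v) := by
  obtain ⟨c, hc⟩ := exists_conj (L := L) h.hr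
  have hq := h.q_pos
  have h0 : ∀ a ∈ M, a ≠ 0 := fun a ha => (h.weil a ha).ne_zero h.hr
  refine ⟨fun g a ha => h.gal g a ha, ?_, ?_, ⟨c, fun a ha => hc a (h.weil a ha)⟩, ?_, ?_, ?_, ?_, ?_⟩
  · intro a ha
    have := h.gal c a ha
    rwa [hc a (h.weil a ha)] at this
  · intro a ha
    exact bar_bar h.hr (h0 a ha)
  · intro g a _
    exact map_bar g a
  · intro a _ g
    unfold Eo
    split_ifs
    · right; rfl
    · left; rfl
  · intro a _ g k
    rfl
  · intro a ha g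
    have hga := h0 _ (h.gal g a ha)
    have e : ord v (g (br r a)) = ord v ((r : L) ^ 2) - ord v (g a) := by
      unfold br
      rw [map_bar, ord_bar h.hr hga]
    unfold Eo
    rw [e]
    rcases h.ordi (g a) (h.gal g a ha) with h1 | h1
    · rw [h1, sub_zero, if_neg hq.ne', if_pos rfl]
      ring
    · rw [h1, sub_self, if_pos rfl, if_neg hq.ne']
  · intro a ha b hb hab
    apply h.sep a ha b hb
    ext g
    rw [h.X_eq ha, h.X_eq hb, hab g]

theorem Ctx.not_ss (h : Ctx v r M) {p e : ℕ} (hre : r = p ^ e) (hp : p.Prime)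
    (hv : (p : 𝓞 L) ∈ v.asIdeal) {a : L} (ha : a ∈ M) : ¬ IsSS r a := by
  rw [ss_iff hre hp hv (h.weil a ha)]
  intro h1
  have h2 := congrFun h1 1
  rw [h.X_eq ha, Pi.zero_apply] at h2
  have hq := h.q_pos
  rcases (h.sys).val a ha 1 with h3 | h3 <;> rw [h3] at h2 <;> omega

/-- sums over multisets in `M` -/
theorem Ctx.XS_eq (h : Ctx v r M) {s : Multiset L} (hs : ∀ a ∈ s, a ∈ M) (g : L ≃ₐ[ℚ] L) :
    XS r v s g = ord v ((r : L) ^ 2) * ∑ a ∈ M, (s.count a : ℤ) * Eo v a g := by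
  have h1 : XS r v s g = ∑ a ∈ s.toFinset, (s.count a : ℤ) * X r v a g := by
    unfold XS
    rw [Finset.sum_multiset_map_count]
    exact Finset.sum_congr rfl (fun a _ => by rw [nsmul_eq_mul])
  rw [h1, Finset.mul_sum]
  have h2 : s.toFinset ⊆ M := fun a ha => hs a (Multiset.mem_toFinset.1 ha)
  rw [← Finset.sum_subset h2]
  · apply Finset.sum_congr rfl
    intro a ha
    rw [h.X_eq (h2 ha)]
    ring
  · intro a _ ha
    rw [Multiset.mem_toFinset] at ha
    rw [Multiset.count_eq_zero_of_notMem ha]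
    simp

end Pool.Agent.Lib.MP81632f.Mk6
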