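import Pool.Agent.Lib.MP_81632f_ag.Mk.Defs

/-!
# Ordinary abelian varieties: definitions

`q = r ^ 2`, `r` a power of the prime `p`; `L` is a number field, Galois over `ℚ`, and `v` is a prime of
`L` over `p`.
-/

namespace Pool.Agent.Lib.MP81632f.Mk6

open NumberField IsDedekindDomain Mk
open scoped Classical

variable {L : Type} [Field L] [NumberField L]

/-- at the prime `v` the number `a` is a unit or has the order of `q` -/
def IsOrd (v : HeightOneSpectrum (𝓞 L)) (r : ℕ) (a : L) : Prop :=
  ord v a = 0 ∨ ord v a = ord v ((r : L) ^ 2)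

/-- the conjugates of `a` -/
noncomputable def conj (a : L) : Finset L := Finset.univ.image (fun g : L ≃ₐ[ℚ] L => g a)

/-- `Gen v r s`: the classes with the multiset `s` of Frobenius eigenvalues over the field with `r ^ 2`
elements are generated by divisor classes and Weil classes on ordinary abelian varieties.  Divisor classes
are the pairs with balanced product (Tate).  Weil classes live on ordinary abelian varieties of dimension
four or six, given by the Galois stable multiset `m`, with an action of an imaginary quadratic field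
(`χ`, `κ`); the half of `m` over one embedding has to be balanced (then the signature of the canonical
lift is `(2, 2)` or `(3, 3)`).  The other rules are products, removing a divisor class, and extension of
the base field. -/
inductive Gen (v : HeightOneSpectrum (𝓞 L)) : ℕ → Multiset L → Prop
  | zero (r : ℕ) : Gen v r 0
  | pair (r : ℕ) (a b : L) : IsWeil r a → IsWeil r b → Bal r {a, b} → Gen v r {a, b}
  | weil (r : ℕ) (m : Multiset L) (χ : (L ≃ₐ[ℚ] L) →* ℤˣ) (κ : L → ℤˣ) :
      (∀ a ∈ m, IsWeil r a ∧ IsOrd v r a) → (∀ g : L ≃ₐ[ℚ] L, m.map g = m) → IsKType r m χ κ →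
      (m.card = 8 ∨ m.card = 12) → Bal r (half m κ) → Gen v r (half m κ)
  | add (r : ℕ) (s t : Multiset L) : Gen v r s → Gen v r t → Gen v r (s + t)
  | remove (r : ℕ) (s : Multiset L) (a b : L) : IsWeil r a → IsWeil r b → Bal r {a, b} →
      Gen v r (s + {a, b}) → Gen v r s
  | base (r N : ℕ) (s : Multiset L) : 0 < N → Gen v (r ^ N) (s.map (fun a => a ^ N)) → Gen v r s

/-- four elements of `M`, no two of them balanced, but balanced together, where some powers of two of them
have at most four conjugates -/
def IsBad (r : ℕ) (M : Finset L) : Prop :=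
  ∃ a ∈ M, ∃ b ∈ M, ∃ c ∈ M, ∃ d ∈ M, Bal r {a, b, c, d} ∧
    ¬ Bal r {a, b} ∧ ¬ Bal r {a, c} ∧ ¬ Bal r {a, d} ∧
    (∃ N : ℕ, 0 < N ∧ (conj (c ^ N)).card ≤ 4) ∧ ∃ N : ℕ, 0 < N ∧ (conj (d ^ N)).card ≤ 4

/-- independence of `a` and `b`: some `g` fixes `a` and maps `b` to `q / b`, up to roots of unity -/
def Indep (r : ℕ) (a b : L) : Prop :=
  ∃ g : L ≃ₐ[ℚ] L, (∃ N : ℕ, 0 < N ∧ (g a) ^ N = a ^ N) ∧ Bal r {g b, b}

end Pool.Agent.Lib.MP81632f.Mk6
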