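import Pool.Agent.Lib.MP_81632f_ag.Mk6.Main
import Pool.Agent.Lib.MP_81632f_ag.Mk.Fin

/-! # Ordinary Weil numbers: base change and the theorem -/

namespace Pool.Agent.Lib.MP81632f.Mk6

open NumberField IsDedekindDomain Mk
open scoped Classical

variable {L : Type} [Field L] [NumberField L] [IsGalois ℚ L]
variable {v : HeightOneSpectrum (𝓞 L)} {r p e : ℕ} {M : Finset L} {s : Multiset L}

/-- the powers -/
noncomputable def pwM (N : ℕ) (M : Finset L) : Finset L := M.image (fun a => a ^ N)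

omit [NumberField L] [IsGalois ℚ L] in
theorem mem_pwM {N : ℕ} {b : L} : b ∈ pwM N M ↔ ∃ a ∈ M, a ^ N = b := Finset.mem_image

/-- after base change -/
theorem ctx_base (hp : p.Prime) (he : 0 < e) (hv : (p : 𝓞 L) ∈ v.asIdeal)
    (hW : ∀ a ∈ M, IsWeil (p ^ e) a) (hO : ∀ a ∈ M, IsOrd v (p ^ e) a)
    (hG : ∀ g : L ≃ₐ[ℚ] L, ∀ a ∈ M, g a ∈ M) {N : ℕ} (hN : 0 < N)
    (hsep : ∀ a ∈ M, ∀ b ∈ M, (∃ K : ℕ, 0 < K ∧ a ^ K = b ^ K) → a ^ N = b ^ N) :
    Ctx v ((p ^ e) ^ N) (pwM N M) := by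
  have hr0 : 0 < p ^ e := pow_pos hp.pos e
  have hrN : (p ^ e) ^ N = p ^ (e * N) := (pow_mul p e N).symm
  have hrne : ((p ^ e : ℕ) : L) ≠ 0 := by exact_mod_cast hr0.ne'
  have hq : ord v ((((p ^ e) ^ N : ℕ) : L) ^ 2) = N * ord v (((p ^ e : ℕ) : L) ^ 2) := by
    rw [← ord_pow v (pow_ne_zero 2 hrne)]
    congr 1
    push_cast
    ring
  have hW' : ∀ b ∈ pwM N M, IsWeil ((p ^ e) ^ N) b := by
    intro b hb
    obtain ⟨a, ha, rfl⟩ := mem_pwM.1 hb
    exact (hW a ha).pw N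
  refine ⟨pow_pos hr0 N, ?_, hW', ?_, ?_, ?_⟩
  · rw [hrN]
    exact ord_r_pos v hp (Nat.mul_pos he hN) hv
  · intro b hb
    obtain ⟨a, ha, rfl⟩ := mem_pwM.1 hb
    unfold IsOrd
    rw [hq, ord_pow v ((hW a ha).ne_zero hr0)]
    rcases hO a ha with h | h
    · left; rw [h, mul_zero]
    · right; rw [h]
  · intro g b hb
    obtain ⟨a, ha, rfl⟩ := mem_pwM.1 hb
    exact mem_pwM.2 ⟨g a, hG g a ha, (map_pow g a N).symm⟩
  · intro b hb b' hb' hX
    obtain ⟨K, hK, h1⟩ := pow_eq_of_X hrN hp hv (hW' b hb) (hW' b' hb') hX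
    obtain ⟨a, ha, rfl⟩ := mem_pwM.1 hb
    obtain ⟨a', ha', rfl⟩ := mem_pwM.1 hb'
    exact hsep a ha a' ha' ⟨N * K, Nat.mul_pos hN hK, by rw [pow_mul, pow_mul, h1]⟩

/-- pairs of supersingular numbers -/
theorem gen_ss : ∀ (k : ℕ) (t : Multiset L), t.card = 2 * k → (∀ a ∈ t, IsWeil r a ∧ IsSS r a) →
    Gen v r t := by
  intro k
  induction k with
  | zero =>
    intro t ht _
    have h0 : t = 0 := Multiset.card_eq_zero.1 (by omega)
    rw [h0]
    exact Gen.zero r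
  | succ k ih =>
    intro t ht h
    obtain ⟨a, ha⟩ := Multiset.card_pos_iff_exists_mem.1 (show 0 < t.card by omega)
    obtain ⟨t1, rfl⟩ := Multiset.exists_cons_of_mem ha
    rw [Multiset.card_cons] at ht
    obtain ⟨b, hb⟩ := Multiset.card_pos_iff_exists_mem.1 (show 0 < t1.card by omega)
    obtain ⟨t2, rfl⟩ := Multiset.exists_cons_of_mem hb
    rw [Multiset.card_cons] at ht
    have e1 : a ::ₘ b ::ₘ t2 = t2 + {a, b} := by
      rw [add_comm, Multiset.insert_eq_cons, Multiset.cons_add, Multiset.singleton_add]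
    have ha := h a (by simp)
    have hb := h b (by simp)
    rw [e1]
    exact Gen.add r _ _ (ih t2 (by omega) (fun x hx => h x (by simp [hx])))
      (Gen.pair r a b ha.1 hb.1 (bal_ss ha.2 hb.2))

/-- the parity of a balanced multiset of ordinary numbers -/
theorem Ctx.card_even (h : Ctx v r M) (hs : ∀ a ∈ s, a ∈ M) (hX : ∀ g, XS r v s g = 0) :
    Even s.card := by
  have h1 := hX 1
  rw [h.XS_eq hs] at h1
  have hq := h.q_pos
  have h2 : ∑ a ∈ M, (s.count a : ℤ) * Eo v a 1 = 0 := by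
    rcases mul_eq_zero.1 h1 with h' | h'
    · exact absurd h' hq.ne'
    · exact h'
  have h3 : (s.card : ℤ) = ∑ a ∈ M, (s.count a : ℤ) := by
    have e1 : s.toFinset ⊆ M := fun a ha => hs a (Multiset.mem_toFinset.1 ha)
    rw [← Multiset.toFinset_sum_count_eq]
    push_cast
    apply Finset.sum_subset e1
    intro a _ ha
    rw [Multiset.mem_toFinset] at ha
    rw [Multiset.count_eq_zero_of_notMem ha]
    rfl
  have h4 : (2 : ℤ) ∣ ∑ a ∈ M, ((s.count a : ℤ) - (s.count a : ℤ) * Eo v a 1) := by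
    apply Finset.dvd_sum
    intro a ha
    rcases h.sys.val a ha 1 with h5 | h5 <;> rw [h5]
    · simp
    · exact ⟨s.count a, by ring⟩
  rw [Finset.sum_sub_distrib, h2, sub_zero, ← h3] at h4
  rw [even_iff_two_dvd]
  exact_mod_cast h4

/-- the bad configuration before base change -/
theorem isBad_of_bad (hp : p.Prime) (hv : (p : 𝓞 L) ∈ v.asIdeal) {N : ℕ} (hN : 0 < N)
    (h : Ctx v ((p ^ e) ^ N) (pwM N M)) (hW : ∀ a ∈ M, IsWeil (p ^ e) a)
    (hbad : Bad (L ≃ₐ[ℚ] L) (pwM N M) (br ((p ^ e) ^ N)) (Eo v)) : IsBad (p ^ e) M := by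
  obtain ⟨a', ha', b', hb', c', hc', d', hd', hsum, hab, hac, had, ⟨J, hJ, hJc⟩, J', hJ', hJd⟩ := hbad
  have hr0 : 0 < p ^ e := pow_pos hp.pos e
  have hrN : (p ^ e) ^ N = p ^ (e * N) := (pow_mul p e N).symm
  have S := h.sys
  have hbal : Bal ((p ^ e) ^ N) {a', b', c', d'} := by
    apply bal_of_XS hrN hp hv
    · intro x hx
      simp only [Multiset.insert_eq_cons, Multiset.mem_cons, Multiset.mem_singleton] at hx
      rcases hx with rfl | rfl | rfl | rfl
      · exact h.weil _ ha'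
      · exact h.weil _ hb'
      · exact h.weil _ hc'
      · exact h.weil _ hd'
    · intro g
      simp only [Multiset.insert_eq_cons, XS_cons, XS_singleton]
      rw [h.X_eq ha', h.X_eq hb', h.X_eq hc', h.X_eq hd']
      have := hsum g
      linear_combination (ord v ((((p ^ e) ^ N : ℕ) : L) ^ 2)) * this
  -- pairs
  have hpair : ∀ x y : L, x ^ N ∈ pwM N M → y ^ N ∈ pwM N M → x ∈ M → y ∈ M →
      x ^ N ≠ br ((p ^ e) ^ N) (y ^ N) → ¬ Bal (p ^ e) {x, y} := by
    intro x y hx hy hxM hyM hne hb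
    apply hne
    obtain ⟨K, hK, h1⟩ := hb
    have hb' : Bal ((p ^ e) ^ N) {x ^ N, y ^ N} := by
      refine ⟨K, hK, ?_⟩
      simp only [Multiset.insert_eq_cons, Multiset.prod_cons, Multiset.prod_singleton,
        Multiset.card_cons, Multiset.card_singleton] at h1 ⊢
      push_cast at h1 ⊢
      calc (x ^ N * y ^ N) ^ K = ((x * y) ^ K) ^ N := by ring
        _ = _ := by rw [h1]; ring
    have h2 : ∀ g, XS ((p ^ e) ^ N) v {x ^ N, y ^ N} g = 0 := by
      apply hb'.XS_eq_zero h.hr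
      intro z hz
      simp only [Multiset.insert_eq_cons, Multiset.mem_cons, Multiset.mem_singleton] at hz
      rcases hz with rfl | rfl
      · exact (h.weil _ hx).ne_zero h.hr
      · exact (h.weil _ hy).ne_zero h.hr
    apply S.inj_neg hx hy
    intro g
    have h3 := h2 g
    rw [Multiset.insert_eq_cons, XS_cons, XS_singleton, h.X_eq hx, h.X_eq hy] at h3
    have hq := h.q_pos
    have h4 : ord v ((((p ^ e) ^ N : ℕ) : L) ^ 2) * (Eo v (x ^ N) g + Eo v (y ^ N) g) = 0 := by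
      linarith
    rcases mul_eq_zero.1 h4 with h5 | h5
    · exact absurd h5 hq.ne'
    · linarith
  obtain ⟨a, haM, rfl⟩ := mem_pwM.1 ha'
  obtain ⟨b, hbM, rfl⟩ := mem_pwM.1 hb'
  obtain ⟨c, hcM, rfl⟩ := mem_pwM.1 hc'
  obtain ⟨d, hdM, rfl⟩ := mem_pwM.1 hd'
  refine ⟨a, haM, b, hbM, c, hcM, d, hdM, ?_, hpair a b ha' hb' haM hbM hab,
    hpair a c ha' hc' haM hcM hac, hpair a d ha' hd' haM hdM had, ⟨N, hN, ?_⟩, ⟨N, hN, ?_⟩⟩
  · obtain ⟨K, hK, h1⟩ := hbal
    refine ⟨N * K, Nat.mul_pos hN hK, ?_⟩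
    simp only [Multiset.insert_eq_cons, Multiset.prod_cons, Multiset.prod_singleton,
      Multiset.card_cons, Multiset.card_singleton] at h1 ⊢
    push_cast at h1 ⊢
    calc (a * (b * (c * d))) ^ (N * K) = (a ^ N * (b ^ N * (c ^ N * d ^ N))) ^ K := by ring
      _ = _ := by rw [h1]; ring
  · apply le_trans (Finset.card_le_card _) hJ
    intro x hx
    obtain ⟨g, _, rfl⟩ := Finset.mem_image.1 hx
    exact hJc g
  · apply le_trans (Finset.card_le_card _) hJ'
    intro x hx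
    obtain ⟨g, _, rfl⟩ := Finset.mem_image.1 hx
    exact hJd g

/-- **Theorem.** -/
theorem gen_ordinary (hp : p.Prime) (he : 0 < e) (hv : (p : 𝓞 L) ∈ v.asIdeal)
    (hRank : ∀ (r : ℕ) (M : Finset L), Ctx v r M → M.card ≤ 12 →
      RankProp (L ≃ₐ[ℚ] L) M (br r) (Eo v))
    (hW : ∀ a ∈ M, IsWeil (p ^ e) a ∧ IsOrd v (p ^ e) a)
    (hG : ∀ g : L ≃ₐ[ℚ] L, ∀ a ∈ M, g a ∈ M) (hc : M.card ≤ 12) (hbad : ¬ IsBad (p ^ e) M)
    (hs : ∀ a ∈ s, a ∈ M ∨ (IsWeil (p ^ e) a ∧ IsSS (p ^ e) a))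
    (h51 : M.card = 12 → (∃ a ∈ M, (conj a).card = 10) → ∀ a ∈ M, s.count a ≤ 2)
    (hT : IsTate (p ^ e) s) : Gen v (p ^ e) s := by
  have hr0 : 0 < p ^ e := pow_pos hp.pos e
  obtain ⟨N, hN, hsep⟩ := exists_sep M.val
  have h := ctx_base (v := v) (M := M) hp he hv (fun a ha => (hW a ha).1) (fun a ha => (hW a ha).2) hG
    hN hsep
  have hrN : (p ^ e) ^ N = p ^ (e * N) := (pow_mul p e N).symm
  apply Gen.base (p ^ e) N s hN
  change Gen v ((p ^ e) ^ N) (pw N s)
  set s1 := s.filter (fun a => a ∈ M) with hs1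
  set s2 := s.filter (fun a => ¬ a ∈ M) with hs2
  have hsplit : s = s1 + s2 := (Multiset.filter_add_not _ s).symm
  have hpw : pw N s = pw N s1 + pw N s2 := by
    conv_lhs => rw [hsplit]
    unfold pw
    rw [Multiset.map_add]
  have hss : ∀ a ∈ pw N s2, IsWeil ((p ^ e) ^ N) a ∧ IsSS ((p ^ e) ^ N) a := by
    intro b hb
    obtain ⟨a, ha, rfl⟩ := mem_pw.1 hb
    rw [hs2, Multiset.mem_filter] at ha
    have h1 := (hs a ha.1).resolve_left ha.2
    exact ⟨h1.1.pw N, (isSS_pw hN).2 h1.2⟩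
  have hin : ∀ a ∈ pw N s1, a ∈ pwM N M := by
    intro b hb
    obtain ⟨a, ha, rfl⟩ := mem_pw.1 hb
    rw [hs1, Multiset.mem_filter] at ha
    exact mem_pwM.2 ⟨a, ha.2, rfl⟩
  have hTN := isTate_pw (N := N) hT
  have hne : ∀ a ∈ pw N s, a ≠ 0 := by
    intro a ha
    rw [hpw, Multiset.mem_add] at ha
    rcases ha with ha | ha
    · exact (h.weil a (hin a ha)).ne_zero h.hr
    · exact (hss a ha).1.ne_zero h.hr
  have hX := hTN.2.XS_eq_zero (v := v) h.hr hne
  have hX2 : ∀ g, XS ((p ^ e) ^ N) v (pw N s2) g = 0 := by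
    intro g
    unfold XS
    apply Multiset.sum_eq_zero
    intro x hx
    obtain ⟨a, ha, rfl⟩ := Multiset.mem_map.1 hx
    have h1 := hss a ha
    have h2 := (ss_iff hrN hp hv h1.1).1 h1.2
    rw [h2]
    rfl
  have hX1 : ∀ g, XS ((p ^ e) ^ N) v (pw N s1) g = 0 := by
    intro g
    have h1 := hX g
    rw [hpw, XS_add, hX2 g, add_zero] at h1
    exact h1
  have hev := h.card_even hin hX1
  have hev2 : Even (pw N s2).card := by
    have h1 := hTN.1
    rw [hpw, Multiset.card_add] at h1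
    exact (Nat.even_add.1 h1).1 hev
  rw [hpw]
  apply Gen.add
  · have hcM : (pwM N M).card ≤ M.card := Finset.card_image_le
    apply h.gen hrN hp hv (hcM.trans hc) (hRank _ _ h (hcM.trans hc))
      (fun hb => hbad (isBad_of_bad hp hv hN h (fun a ha => (hW a ha).1) hb)) hin hX1
    rintro h12 ⟨x, hx, h10⟩ z hz
    have hM12 : M.card = 12 := by omega
    have hinj : Set.InjOn (fun a : L => a ^ N) (M : Set L) := by
      apply Finset.card_image_iff.1
      show (pwM N M).card = M.card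
      omega
    obtain ⟨y, hy, rfl⟩ := mem_pwM.1 hx
    have hconj : (conj y).card = 10 := by
      rw [← h10]
      have e1 : orb (L ≃ₐ[ℚ] L) (pwM N M) (y ^ N) = (conj y).image (fun a => a ^ N) := by
        ext u
        rw [mem_orb, Finset.mem_image]
        constructor
        · rintro ⟨_, g, hg⟩
          refine ⟨g y, Finset.mem_image.2 ⟨g, Finset.mem_univ _, rfl⟩, ?_⟩
          rw [← hg]
          exact (map_pow g y N).symm
        · rintro ⟨w, hw, rfl⟩
          obtain ⟨g, _, rfl⟩ := Finset.mem_image.1 hw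
          exact ⟨mem_pwM.2 ⟨g y, hG g y hy, rfl⟩, g, map_pow g y N⟩
      rw [e1]
      symm
      apply Finset.card_image_of_injOn
      intro u hu w hw huw
      obtain ⟨g, _, rfl⟩ := Finset.mem_image.1 (Finset.mem_coe.1 hu)
      obtain ⟨g', _, rfl⟩ := Finset.mem_image.1 (Finset.mem_coe.1 hw)
      exact hinj (hG g y hy) (hG g' y hy) huw
    have hcount := h51 hM12 ⟨y, hy, hconj⟩
    obtain ⟨w, hw, rfl⟩ := mem_pwM.1 hz
    rw [count_pw]
    have e1 : s1.toFinset.filter (fun a => a ^ N = w ^ N) ⊆ {w} := by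
      intro u hu
      rw [Finset.mem_filter, Multiset.mem_toFinset, hs1, Multiset.mem_filter] at hu
      rw [Finset.mem_singleton]
      exact hinj hu.1.2 hw hu.2
    calc ∑ a ∈ s1.toFinset.filter (fun a => a ^ N = w ^ N), s1.count a
        ≤ ∑ a ∈ {w}, s1.count a := Finset.sum_le_sum_of_subset e1
      _ = s1.count w := by rw [Finset.sum_singleton]
      _ ≤ s.count w := Multiset.count_le_of_le w (Multiset.filter_le _ s)
      _ ≤ 2 := hcount w hw
  · obtain ⟨k, hk⟩ := hev2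
    exact gen_ss k _ (by omega) hss

end Pool.Agent.Lib.MP81632f.Mk6
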