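import Pool.Agent.Lib.MP_81632f_ag.Mk6.Quad2

/-! # Two different quadruples form the bad configuration: end of the proof -/

namespace Pool.Agent.Lib.MP81632f.Mk6

variable {G α : Type} [Group G] [DecidableEq α] [MulAction G α]
variable {M : Finset α} {bar : α → α} {E : α → G → ℤ}

/-- part of a relation -/
def phi (M : Finset α) (E : α → G → ℤ) (n n' : α → ℤ) (g : G) : ℤ :=
  ∑ x ∈ M, (if n' x ≠ 0 then n x * E x g else 0)

omit [DecidableEq α] [MulAction G α] in
theorem phi_neg_left (n n' : α → ℤ) (g : G) : phi M E (-n) n' g = -phi M E n n' g := by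
  unfold phi
  rw [← Finset.sum_neg_distrib]
  apply Finset.sum_congr rfl
  intro x _
  rw [Pi.neg_apply]
  split_ifs <;> ring

omit [DecidableEq α] [MulAction G α] in
theorem phi_neg_right (n n' : α → ℤ) (g : G) : phi M E n (-n') g = phi M E n n' g := by
  unfold phi
  apply Finset.sum_congr rfl
  intro x _
  simp only [Pi.neg_apply, ne_eq, neg_eq_zero]

variable (S : Sys M bar E)
include S

theorem Sys.phi_trans (n n' : α → ℤ) (k g : G) :
    phi M E (fun x => n (k⁻¹ • x)) (fun x => n' (k⁻¹ • x)) g = phi M E n n' (g * k) := by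
  unfold phi
  rw [← S.sum_smul k]
  apply Finset.sum_congr rfl
  intro x hx
  simp only [inv_smul_smul]
  rw [S.act x hx]

variable (hM : M.card ≤ 12)
include hM

theorem Sys.no_plus {n n' : α → ℤ} (h : Quad M bar E n) (h' : Quad M bar E n')
    (h1 : n' ≠ n) (h2 : n' ≠ -n) (h8 : nu M (n - n') = 8) : False := by
  have h3 : Quad M bar E (n - n') := ⟨h.rel.sub h'.rel, h8⟩
  obtain ⟨c1, u1⟩ := S.card_inter hM h h' h1 h2
  have q := S.quad_cases h
  have q' := S.quad_cases h'
  have q3 := S.quad_cases h3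
  have hval : ∀ x, (n x = n' x) ∨ (n x ≠ 0 ∧ n' x = 0) ∨ (n x = 0 ∧ n' x ≠ 0) := by
    intro x
    have f1 := q x
    have f2 := q' x
    have f3 := q3 x
    rw [Pi.sub_apply] at f3
    omega
  set J := supp M n ∩ supp M n' with hJ
  have hJM : J ⊆ M := Finset.inter_subset_left.trans (Finset.filter_subset _ _)
  have hmJ : ∀ x, x ∈ J ↔ x ∈ M ∧ n x ≠ 0 ∧ n' x ≠ 0 := by
    intro x
    rw [hJ, Finset.mem_inter, mem_supp, mem_supp]
    tauto
  obtain ⟨a, ha, b, hb, ha1, hb1, hba, hbb, hsum⟩ := S.four hJM (n := n)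
    (by
      intro x hx
      rw [hmJ] at hx ⊢
      refine ⟨S.bar_mem x hx.1, ?_, ?_⟩
      · rw [h.rel.odd x hx.1]; exact neg_ne_zero.2 hx.2.1
      · rw [h'.rel.odd x hx.1]; exact neg_ne_zero.2 hx.2.2)
    c1
    (by
      intro x hx
      rw [hmJ] at hx
      exact (q x).resolve_left hx.2.1)
    (fun x hx => h.rel.odd x (hJM hx))
  have haM := hJM ha
  have hbM := hJM hb
  -- the sum over the common support
  have hphi : ∀ g, phi M E n n' g = 2 * (E a g + E b g) := by
    intro g
    rw [← hsum g]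
    unfold phi
    rw [← Finset.sum_filter]
    symm
    apply Finset.sum_subset
    · intro x hx
      rw [hmJ] at hx
      exact Finset.mem_filter.2 ⟨hx.1, hx.2.2⟩
    · intro x hx hx'
      rw [Finset.mem_filter] at hx
      have : n x = 0 := by
        by_contra h0
        exact hx' ((hmJ x).2 ⟨hx.1, h0, hx.2⟩)
      rw [this, zero_mul]
  -- the other sums
  have key : ∀ (f : α → ℤ) (α' β' γ' : ℤ), (∀ x ∈ M, f x = α' * n x + β' * n' x +
      γ' * (if n' x ≠ 0 then n x else 0)) → ∀ g, ∑ x ∈ M, f x * E x g = γ' * phi M E n n' g := by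
    intro f α' β' γ' hf g
    have e1 : ∑ x ∈ M, f x * E x g = α' * ∑ x ∈ M, n x * E x g + β' * ∑ x ∈ M, n' x * E x g +
        γ' * phi M E n n' g := by
      unfold phi
      rw [Finset.mul_sum, Finset.mul_sum, Finset.mul_sum, ← Finset.sum_add_distrib,
        ← Finset.sum_add_distrib]
      apply Finset.sum_congr rfl
      intro x hx
      rw [hf x hx]
      split_ifs <;> ring
    rw [e1, h.rel.rel g, h'.rel.rel g]
    ring
  have hform : ∀ (u w : α → ℤ) (g : G), phi M E u w g =
      ∑ x ∈ M, (if w x ≠ 0 then u x else 0) * E x g := by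
    intro u w g
    unfold phi
    apply Finset.sum_congr rfl
    intro x _
    split_ifs <;> ring
  have p21 : ∀ g, phi M E n' n g = phi M E n n' g := by
    intro g
    rw [hform, key _ 0 0 1 _ g, one_mul]
    intro x _
    have := hval x
    split_ifs <;> omega
  have p13 : ∀ g, phi M E n (n - n') g = -phi M E n n' g := by
    intro g
    rw [hform, key _ 1 0 (-1) _ g, neg_one_mul]
    intro x _
    rw [Pi.sub_apply]
    have := hval x
    split_ifs <;> omega
  have p23 : ∀ g, phi M E n' (n - n') g = -phi M E n n' g := by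
    intro g
    rw [hform, key _ 0 1 (-1) _ g, neg_one_mul]
    intro x _
    rw [Pi.sub_apply]
    have := hval x
    split_ifs <;> omega
  have p31 : ∀ g, phi M E (n - n') n g = -phi M E n n' g := by
    intro g
    rw [hform, key _ 1 0 (-1) _ g, neg_one_mul]
    intro x _
    rw [Pi.sub_apply]
    have := hval x
    split_ifs <;> omega
  have p32 : ∀ g, phi M E (n - n') n' g = phi M E n n' g := by
    intro g
    rw [hform, key _ 0 (-1) 1 _ g, one_mul]
    intro x _
    rw [Pi.sub_apply]
    have := hval x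
    split_ifs <;> omega
  -- all quadruples
  have hx : ∃ x ∈ J, True := ⟨a, ha, trivial⟩
  have hne0 : n a ≠ 0 := by rw [ha1]; exact one_ne_zero
  have hne0' : n' a ≠ 0 := ((hmJ a).1 ha).2.2
  have heq : n a = n' a := by
    have := hval a
    omega
  have d1 : n - n' ≠ n := by
    intro hh
    have := congrFun hh a
    rw [Pi.sub_apply] at this
    omega
  have d2 : n - n' ≠ -n := by
    intro hh
    have := congrFun hh a
    rw [Pi.sub_apply, Pi.neg_apply] at this
    omega
  have d3 : n - n' ≠ n' := by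
    intro hh
    have := congrFun hh a
    rw [Pi.sub_apply] at this
    omega
  have d4 : n - n' ≠ -n' := by
    intro hh
    have := congrFun hh a
    rw [Pi.sub_apply, Pi.neg_apply] at this
    omega
  have hall : ∀ m : α → ℤ, Quad M bar E m →
      m = n ∨ m = -n ∨ m = n' ∨ m = -n' ∨ m = n - n' ∨ m = -(n - n') := by
    intro m hm
    by_contra hcon
    simp only [not_or] at hcon
    obtain ⟨e1, e2, e3, e4, e5, e6⟩ := hcon
    have s1 := S.third hM h h' hm h1 h2 e1 e2 e3 e4
    have s2 := S.third hM h h' h3 h1 h2 d1 d2 d3 d4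
    rcases S.quad_eq h3 hm (s2.trans s1.symm) with h9 | h9
    · exact e5 h9
    · exact e6 h9
  -- invariance
  have hinv : ∀ k : G, phi M E n n' k = phi M E n n' 1 ∨ phi M E n n' k = -phi M E n n' 1 := by
    intro k
    have t0 := S.phi_trans n n' k 1
    rw [one_mul] at t0
    rw [← t0]
    have t1 : (fun x => n' (k⁻¹ • x)) ≠ (fun x => n (k⁻¹ • x)) := by
      intro hh
      apply h1
      ext x
      have := congrFun hh (k • x)
      simpa only [inv_smul_smul] using this
    have t2 : (fun x => n' (k⁻¹ • x)) ≠ -(fun x => n (k⁻¹ • x)) := by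
      intro hh
      apply h2
      ext x
      have := congrFun hh (k • x)
      simp only [Pi.neg_apply, inv_smul_smul] at this
      rw [this, Pi.neg_apply]
    have k1 := hall _ (S.quad_trans k⁻¹ h)
    have k2 := hall _ (S.quad_trans k⁻¹ h')
    generalize (fun x => n (k⁻¹ • x)) = m1 at *
    generalize (fun x => n' (k⁻¹ • x)) = m2 at *
    rcases k1 with k1 | k1 | k1 | k1 | k1 | k1 <;> rcases k2 with k2 | k2 | k2 | k2 | k2 | k2 <;>
      subst k1 <;> subst k2 <;>
      first
      | exact absurd rfl t1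
      | exact absurd rfl t2
      | exact absurd (neg_neg _).symm t2
      | (simp only [phi_neg_left, phi_neg_right, p21, p13, p23, p31, p32, neg_neg, true_or, or_true])
  have hE : ∀ g, E a g + E b g = E a 1 + E b 1 ∨ E a g + E b g = -(E a 1 + E b 1) := by
    intro g
    have := hinv g
    rw [hphi, hphi] at this
    omega
  by_cases hc : E a 1 = E b 1
  · apply hba
    symm
    apply S.inj a haM b hbM
    intro g
    have f1 := hE g
    rcases S.val a haM g with f2 | f2 <;> rcases S.val b hbM g with f3 | f3 <;>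
      rcases S.val a haM 1 with f4 | f4 <;> rcases S.val b hbM 1 with f5 | f5 <;>
      rw [f2, f3, f4, f5] at f1 <;> rw [f4, f5] at hc <;> rw [f2, f3] <;> omega
  · apply hbb
    apply S.inj_neg hbM haM
    intro g
    have f1 := hE g
    rcases S.val a haM g with f2 | f2 <;> rcases S.val b hbM g with f3 | f3 <;>
      rcases S.val a haM 1 with f4 | f4 <;> rcases S.val b hbM 1 with f5 | f5 <;>
      rw [f2, f3, f4, f5] at f1 <;> rw [f4, f5] at hc <;> rw [f2, f3] <;> omega

/-- **Two different quadruples form the bad configuration.** -/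
theorem Sys.bad_of_two {n n' : α → ℤ} (h : Quad M bar E n) (h' : Quad M bar E n')
    (h1 : n' ≠ n) (h2 : n' ≠ -n) : Bad G M bar E := by
  have h7 : nu M (n - n') ≠ 8 := fun h8 => S.no_plus hM h h' h1 h2 h8
  have h8 : nu M (n + n') ≠ 8 := by
    intro h8
    apply S.no_plus hM h h'.neg (fun e => h2 (by rw [← e, neg_neg])) (fun e => h1 (neg_injective e))
    rw [sub_neg_eq_add]
    exact h8
  obtain ⟨c1, u1⟩ := S.card_inter hM h h' h1 h2
  have q := S.quad_cases h
  set J := supp M n ∩ supp M n' with hJ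
  have hJM : J ⊆ M := Finset.inter_subset_left.trans (Finset.filter_subset _ _)
  have hmJ : ∀ x, x ∈ J ↔ x ∈ M ∧ n x ≠ 0 ∧ n' x ≠ 0 := by
    intro x
    rw [hJ, Finset.mem_inter, mem_supp, mem_supp]
    tauto
  have hbJ : ∀ x ∈ J, bar x ∈ J := by
    intro x hx
    rw [hmJ] at hx ⊢
    refine ⟨S.bar_mem x hx.1, ?_, ?_⟩
    · rw [h.rel.odd x hx.1]; exact neg_ne_zero.2 hx.2.1
    · rw [h'.rel.odd x hx.1]; exact neg_ne_zero.2 hx.2.2
  -- `J` is stable
  have hstab : ∀ (k : G), ∀ x ∈ J, k • x ∈ J := by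
    intro k x hx
    rw [hmJ] at hx ⊢
    have k1 := S.no_third hM h h' (S.quad_trans k h) h1 h2 h7 h8
    have k2 := S.no_third hM h h' (S.quad_trans k h') h1 h2 h7 h8
    refine ⟨S.smul_mem k x hx.1, ?_, ?_⟩
    · rcases k1 with k1 | k1 | k1 | k1 <;> have := congrFun k1 x <;> intro h0 <;>
        (try simp only [Pi.neg_apply] at this) <;> rw [h0] at this <;>
        first | exact hx.2.1 this.symm | exact hx.2.2 this.symm
              | exact hx.2.1 (neg_eq_zero.1 this.symm) | exact hx.2.2 (neg_eq_zero.1 this.symm)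
    · rcases k2 with k1 | k1 | k1 | k1 <;> have := congrFun k1 x <;> intro h0 <;>
        (try simp only [Pi.neg_apply] at this) <;> rw [h0] at this <;>
        first | exact hx.2.1 this.symm | exact hx.2.2 this.symm
              | exact hx.2.1 (neg_eq_zero.1 this.symm) | exact hx.2.2 (neg_eq_zero.1 this.symm)
  obtain ⟨c, hc, d, hd, hc1, hd1, hdc, hdbc, hsum⟩ := S.four hJM (n := n) hbJ c1
    (by
      intro x hx
      rw [hmJ] at hx
      exact (q x).resolve_left hx.2.1)
    (fun x hx => h.rel.odd x (hJM hx))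
  set T := supp M n \ J with hT
  have hmT : ∀ x, x ∈ T ↔ x ∈ M ∧ n x ≠ 0 ∧ n' x = 0 := by
    intro x
    rw [hT, Finset.mem_sdiff, mem_supp, hmJ]
    tauto
  have hTM : T ⊆ M := fun x hx => ((hmT x).1 hx).1
  have hTc : T.card = 4 := by
    rw [hT, Finset.card_sdiff_of_subset (by rw [hJ]; exact Finset.inter_subset_left), c1]
    have := S.card_supp h
    omega
  obtain ⟨a, ha, b, hb, ha1, hb1, hba, hbab, hsum'⟩ := S.four hTM (n := n)
    (by
      intro x hx
      rw [hmT] at hx ⊢
      refine ⟨S.bar_mem x hx.1, ?_, ?_⟩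
      · rw [h.rel.odd x hx.1]; exact neg_ne_zero.2 hx.2.1
      · rw [h'.rel.odd x hx.1, hx.2.2, neg_zero])
    hTc
    (by
      intro x hx
      rw [hmT] at hx
      exact (q x).resolve_left hx.2.1)
    (fun x hx => h.rel.odd x (hTM hx))
  refine ⟨a, hTM ha, b, hTM hb, c, hJM hc, d, hJM hd, ?_, ?_, ?_, ?_, ⟨J, c1.le, fun g => hstab g c hc⟩,
    ⟨J, c1.le, fun g => hstab g d hd⟩⟩
  · intro g
    have e1 := h.rel.rel g
    have e2 : ∑ x ∈ M, n x * E x g = ∑ x ∈ supp M n, n x * E x g := by
      symm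
      apply Finset.sum_subset (Finset.filter_subset _ _)
      intro x hx hx'
      have : n x = 0 := by
        by_contra h0
        exact hx' (mem_supp.2 ⟨hx, h0⟩)
      rw [this, zero_mul]
    have e3 := Finset.sum_sdiff (f := fun x => n x * E x g)
      (show J ⊆ supp M n by rw [hJ]; exact Finset.inter_subset_left)
    rw [← hT] at e3
    rw [e2, ← e3, hsum g, hsum' g] at e1
    omega
  · intro hh
    have := h.rel.odd b (hTM hb)
    rw [← hh, ha1, hb1] at this
    omega
  · intro hh
    have := h.rel.odd c (hJM hc)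
    rw [← hh, ha1, hc1] at this
    omega
  · intro hh
    have := h.rel.odd d (hJM hd)
    rw [← hh, ha1, hd1] at this
    omega

end Pool.Agent.Lib.MP81632f.Mk6
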