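import Pool.Agent.Lib.MP_81632f_ag.Mk6.Conv
import Pool.Agent.Lib.MP_81632f_ag.Mk6.Quad3
import Pool.Agent.Lib.MP_81632f_ag.Mk.KT2

/-! # Ordinary Weil numbers: generation -/

namespace Pool.Agent.Lib.MP81632f.Mk6

open NumberField IsDedekindDomain Mk
open scoped Classical

section abs

variable {G α : Type} [Group G] [DecidableEq α] [MulAction G α]
variable {M : Finset α} {bar : α → α} {E : α → G → ℤ}

/-- two quadruples exist as soon as some relation is not semi-invariant -/
def RankProp (G : Type) [Group G] [MulAction G α] (M : Finset α) (bar : α → α) (E : α → G → ℤ) :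
    Prop :=
  ∀ (n : α → ℤ) (k : G), Rel M bar E n → (fun a => n (k • a)) ≠ n → (fun a => n (k • a)) ≠ -n →
    ∃ n1 n2 : α → ℤ, Quad M bar E n1 ∧ Quad M bar E n2 ∧ n2 ≠ n1 ∧ n2 ≠ -n1

/-- all relations are generated -/
theorem Sys.main (S : Sys M bar E) (hM : M.card ≤ 12) (hR : RankProp G M bar E)
    (hbad : ¬ Bad G M bar E) {n : α → ℤ} (h : Rel M bar E n)
    (hb : M.card = 12 → (∃ x ∈ M, (orb G M x).card = 10) → ∀ a, |n a| ≤ 2) : n ∈ Cl M bar E := by
  have hs : SemiInv G n := by
    intro k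
    by_contra hcon
    rw [not_or] at hcon
    obtain ⟨n1, n2, h1, h2, h3, h4⟩ := hR n k h (fun h' => hcon.1 (congrFun h'))
      (fun h' => hcon.2 (fun a => congrFun h' a))
    exact hbad (S.bad_of_two hM h1 h2 h3 h4)
  apply S.semi_cl hM _ n rfl h hs
  intro hex
  by_cases h12 : M.card = 12
  · exact hb h12 hex
  obtain ⟨x, hx, h10⟩ := hex
  have hsub : orb G M x ⊆ M := fun u hu => (mem_orb.1 hu).1
  have hle := Finset.card_le_card hsub
  have heven : (M.card : ℤ) = 2 * (pos M E).card := by
    have := S.sum_pos (fun _ => 1) (fun _ _ => rfl)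
    simpa using this
  have hMx : orb G M x = M := Finset.eq_of_subset_of_card_le hsub (by omega)
  have : n = 0 := by
    by_contra hne
    obtain ⟨a, ha⟩ : ∃ a, n a ≠ 0 := by
      by_contra hh
      apply hne
      ext a
      by_contra h''
      exact hh ⟨a, h''⟩
    have haM : a ∈ M := by
      by_contra h'
      exact ha (h.out a h')
    obtain ⟨κ, B⟩ := S.exists_blk h hs ha
    have ho : orb G M a = M := by
      rw [S.orb_eq (a := x) (b := a) (by rw [hMx]; exact haM), hMx]
    rw [ho] at B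
    have h1 := h.rel 1
    have e1 : ∑ y ∈ M, n y * E y 1 = |n a| * PP M E κ 1 := by
      unfold PP
      rw [Finset.mul_sum]
      apply Finset.sum_congr rfl
      intro y hy
      rw [B.eq y hy]
      ring
    rw [e1] at h1
    have h2 : PP M E κ 1 = 0 := by
      rcases mul_eq_zero.1 h1 with h2 | h2
      · exact absurd (abs_eq_zero.1 h2) ha
      · exact h2
    have h3 := (S.blk_cases hs B).1
    rw [h2, sub_zero] at h3
    rw [hMx] at h10
    rw [h10] at h3
    norm_num at h3
  intro a
  rw [this]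
  simp

end abs

variable {L : Type} [Field L] [NumberField L] [IsGalois ℚ L]
variable {v : HeightOneSpectrum (𝓞 L)} {r p e : ℕ} {M : Finset L}

/-- semi-invariant relations with norm `8` or `12` are Weil classes -/
theorem Ctx.gen_of_isGen (h : Ctx v r M) (hre : r = p ^ e) (hp : p.Prime)
    (hv : (p : 𝓞 L) ∈ v.asIdeal) {w : L → ℤ} (hw : IsGen (G := L ≃ₐ[ℚ] L) M (br r) (Eo v) w) :
    Gen v r (ms M w) := by
  set T := ms M w with hT
  have S := h.sys
  have hTM : ∀ a ∈ T, a ∈ M := fun a ha => (mem_ms.1 ha).1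
  have hTw : ∀ a ∈ T, 0 < w a := fun a ha => (mem_ms.1 ha).2
  have hRed : Red r T := by
    refine ⟨fun a ha => h.weil a (hTM a ha), fun a ha => h.not_ss hre hp hv (hTM a ha), ?_⟩
    intro a b hab hbal
    have ha : a ∈ T := Multiset.mem_of_le hab (by simp)
    have hb : b ∈ T := Multiset.mem_of_le hab (by simp)
    have haM := hTM a ha
    have hbM := hTM b hb
    have h1 : ∀ g, XS r v {a, b} g = 0 := by
      apply hbal.XS_eq_zero h.hr
      intro x hx
      have hxT : x ∈ T := Multiset.mem_of_le hab hx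
      exact (h.weil x (hTM x hxT)).ne_zero h.hr
    have h2 : a = br r b := by
      apply S.inj_neg haM hbM
      intro g
      have h3 := h1 g
      rw [Multiset.insert_eq_cons, XS_cons, XS_singleton, h.X_eq haM, h.X_eq hbM] at h3
      have hq := h.q_pos
      have h4 : ord v ((r : L) ^ 2) * (Eo v a g + Eo v b g) = 0 := by linarith
      rcases mul_eq_zero.1 h4 with h5 | h5
      · exact absurd h5 hq.ne'
      · linarith
    have h5 := hTw a ha
    have h6 := hTw b hb
    have h7 := hw.rel.odd b hbM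
    rw [← h2] at h7
    omega
  have hcount : ∀ (g : L ≃ₐ[ℚ] L) (x : L), (T.map g).count x = T.count (g⁻¹ x) := by
    intro g x
    have e1 := Multiset.count_map_eq_count' g T g.injective (g⁻¹ x)
    have e2 : g (g⁻¹ x) = x := AlgEquiv.apply_symm_apply g x
    rwa [e2] at e1
  have hMg : ∀ (g : L ≃ₐ[ℚ] L) (x : L), g x ∈ M ↔ x ∈ M := fun g x => S.smul_mem_iff g
  have hMb : ∀ x : L, (r : L) ^ 2 / x ∈ M ↔ x ∈ M := by
    intro x
    constructor
    · intro hx
      have := S.bar_mem _ hx
      change br r (br r x) ∈ M at this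
      rwa [br_br h.hr] at this
    · exact S.bar_mem x
  have hg : ∀ g : L ≃ₐ[ℚ] L, T.map g = T ∨ T.map g = bars r T := by
    intro g
    rcases hw.semi g⁻¹ with h1 | h1
    · left
      ext x
      rw [hcount, hT, count_ms, count_ms]
      have h2 : w (g⁻¹ x) = w x := h1 x
      rw [h2]
      by_cases hx : x ∈ M
      · rw [if_pos hx, if_pos ((hMg g⁻¹ x).2 hx)]
      · rw [if_neg hx, if_neg (fun h' => hx ((hMg g⁻¹ x).1 h'))]
    · right
      ext x
      rw [hcount, count_bars h.hr, hT, count_ms, count_ms]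
      have h2 : w (g⁻¹ x) = -w x := h1 x
      rw [h2]
      by_cases hx : x ∈ M
      · rw [if_pos ((hMb x).2 hx), if_pos ((hMg g⁻¹ x).2 hx)]
        have h3 : w ((r : L) ^ 2 / x) = -w x := hw.rel.odd x hx
        rw [h3]
      · rw [if_neg (fun h' => hx ((hMb x).1 h')), if_neg (fun h' => hx ((hMg g⁻¹ x).1 h'))]
  have hcard := h.card_ms hw.rel
  rw [← hT] at hcard
  have hne : T ≠ bars r T := by
    intro he
    have hpos : 0 < T.card := by
      rcases hw.nu with h1 | h1 <;> omega
    obtain ⟨a, ha⟩ := Multiset.card_pos_iff_exists_mem.1 hpos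
    exact hRed.notMem_bars h.hr ha (he ▸ ha)
  have hk := isKType h.hr hRed hg hne
  have hhalf := half_eq h.hr hRed
  have hbal : Bal r T := bal_of_XS hre hp hv (fun a ha => h.weil a (hTM a ha)) (h.XS_ms hw.rel)
  have := Gen.weil (v := v) r (T + bars r T) (chi h.hr T hg hne) (kap T)
    (by
      intro a ha
      have haM : a ∈ M := by
        rcases Multiset.mem_add.1 ha with h1 | h1
        · exact hTM a h1
        · exact (hMb a).1 (hTM _ ((mem_bars h.hr).1 h1))
      exact ⟨h.weil a haM, h.ordi a haM⟩)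
    (by
      intro g
      rw [Multiset.map_add, map_bars]
      rcases hg g with h1 | h1
      · rw [h1]
      · rw [h1, bars_bars h.hr, add_comm])
    hk
    (by
      rw [Multiset.card_add, card_bars]
      rcases hw.nu with h1 | h1 <;> omega)
    (by rw [hhalf]; exact hbal)
  rwa [hhalf] at this

theorem Ctx.gen_of_cl (h : Ctx v r M) (hre : r = p ^ e) (hp : p.Prime)
    (hv : (p : 𝓞 L) ∈ v.asIdeal) {n : L → ℤ} (hn : n ∈ Cl (G := L ≃ₐ[ℚ] L) M (br r) (Eo v)) :
    Rel M (br r) (Eo v) n ∧ Gen v r (ms M n) := by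
  have S := h.sys
  refine AddSubmonoid.closure_induction (motive := fun n _ => Rel M (br r) (Eo v) n ∧ Gen v r (ms M n))
    ?_ ?_ ?_ hn
  · intro w hw
    exact ⟨hw.rel, h.gen_of_isGen hre hp hv hw⟩
  · refine ⟨Rel.zero, ?_⟩
    have : ms M (0 : L → ℤ) = 0 := by
      apply Multiset.eq_zero_of_forall_notMem
      intro a ha
      have := (mem_ms.1 ha).2
      simp at this
    rw [this]
    exact Gen.zero r
  · rintro x y _ _ ⟨hx, hx'⟩ ⟨hy, hy'⟩
    refine ⟨hx.add hy, ?_⟩
    apply gen_congr h (s := ms M x + ms M y) _ _ _ (Gen.add r _ _ hx' hy')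
    · intro a ha
      rcases Multiset.mem_add.1 ha with h1 | h1
      · exact (mem_ms.1 h1).1
      · exact (mem_ms.1 h1).1
    · intro a ha
      exact (mem_ms.1 ha).1
    · intro a ha
      rw [Multiset.count_add, Multiset.count_add, count_ms, count_ms, count_ms, count_ms, count_ms,
        count_ms, if_pos ha, if_pos (S.bar_mem a ha), if_pos ha, if_pos (S.bar_mem a ha), if_pos ha,
        if_pos (S.bar_mem a ha), Pi.add_apply, Pi.add_apply, hx.odd a ha, hy.odd a ha]
      omega

/-- **Balanced multisets of ordinary Weil numbers are generated.** -/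
theorem Ctx.gen (h : Ctx v r M) (hre : r = p ^ e) (hp : p.Prime)
    (hv : (p : 𝓞 L) ∈ v.asIdeal) (hM : M.card ≤ 12) (hR : RankProp (L ≃ₐ[ℚ] L) M (br r) (Eo v))
    (hbad : ¬ Bad (L ≃ₐ[ℚ] L) M (br r) (Eo v)) {s : Multiset L} (hs : ∀ a ∈ s, a ∈ M)
    (hX : ∀ g, XS r v s g = 0)
    (hb : M.card = 12 → (∃ x ∈ M, (orb (L ≃ₐ[ℚ] L) M x).card = 10) → ∀ a ∈ M, s.count a ≤ 2) :
    Gen v r s := by
  have S := h.sys
  have hrel := h.rel_nf hs hX
  have hcl := S.main hM hR hbad hrel (by
    intro h12 hex a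
    unfold nf
    by_cases ha : a ∈ M
    · rw [if_pos ha]
      have h1 := hb h12 hex a ha
      have h2 := hb h12 hex _ (S.bar_mem a ha)
      rw [abs_le]
      omega
    · rw [if_neg ha]
      simp)
  apply gen_congr h (fun a ha => (mem_ms.1 ha).1) hs _ (h.gen_of_cl hre hp hv hcl).2
  intro a ha
  rw [count_ms, count_ms, if_pos ha, if_pos (S.bar_mem a ha), hrel.odd a ha]
  have : nf r M s a = (s.count a : ℤ) - s.count (br r a) := if_pos ha
  omega

end Pool.Agent.Lib.MP81632f.Mk6
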