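import Pool.Agent.Lib.MP_81632f_ag.Mk6.All

/-! # Products of independent ordinary abelian varieties -/

namespace Pool.Agent.Lib.MP81632f.Mk6

open NumberField IsDedekindDomain Mk
open scoped Classical

variable {L : Type} [Field L] [NumberField L]
variable {v : HeightOneSpectrum (𝓞 L)} {r p e : ℕ} {s : Multiset L}

theorem ip_XS_zero {s t : Multiset L} (h : ∀ a ∈ s, ∀ b ∈ t, ip (X r v a) (X r v b) = 0) :
    ip (XS r v s) (XS r v t) = 0 := by
  have h1 : ∀ (f : (L ≃ₐ[ℚ] L) → ℤ) (t : Multiset L), (∀ b ∈ t, ip f (X r v b) = 0) →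
      ip f (XS r v t) = 0 := by
    intro f t
    induction t using Multiset.induction_on with
    | empty =>
      intro _
      unfold ip
      apply Finset.sum_eq_zero
      intro g _
      rw [XS_zero, mul_zero]
    | cons b t ih =>
      intro hb
      have e1 : XS r v (b ::ₘ t) = X r v b + XS r v t := by
        ext g
        rw [XS_cons, Pi.add_apply]
      rw [e1, ip_add_right, hb b (by simp), ih (fun c hc => hb c (by simp [hc])), add_zero]
  apply h1
  intro b hb
  rw [ip_comm]
  apply h1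
  intro a ha
  rw [ip_comm]
  exact h a ha b hb

theorem ip_zero_of_indep (hr : 0 < r) {a b : L} (ha : a ≠ 0) (hb : b ≠ 0) (h : Indep r a b) :
    ip (X r v a) (X r v b) = 0 := by
  obtain ⟨g, ⟨N, hN, h1⟩, h2⟩ := h
  have h3 := ip_act (X r v a) (X r v b) g
  rw [← X_map, ← X_map] at h3
  have h4 : X r v (g a) = X r v a := by
    ext k
    unfold X
    have h5 := congrArg (fun x => ord v (k x)) h1
    simp only [map_pow] at h5
    rw [ord_pow v ((map_ne_zero k).2 ((map_ne_zero g).2 ha)), ord_pow v ((map_ne_zero k).2 ha)] at h5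
    have hN' : (N : ℤ) ≠ 0 := by exact_mod_cast hN.ne'
    rw [mul_left_cancel₀ hN' h5]
  have h5 : X r v (g b) = -X r v b := by
    ext k
    have h6 := h2.XS_eq_zero (v := v) hr (by
      intro x hx
      simp only [Multiset.insert_eq_cons, Multiset.mem_cons, Multiset.mem_singleton] at hx
      rcases hx with rfl | rfl
      · exact (map_ne_zero g).2 hb
      · exact hb) k
    rw [Multiset.insert_eq_cons, XS_cons, XS_singleton] at h6
    rw [Pi.neg_apply]
    linarith
  rw [h4, h5, ip_neg_right] at h3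
  omega

variable [IsGalois ℚ L]

/-- the part of `s` in `M` -/
noncomputable def part (M : Finset L) (s : Multiset L) : Multiset L := s.filter (fun a => a ∈ M)

/-- **Theorem.** -/
theorem gen_prod {ι : Type} [Fintype ι] {M : ι → Finset L}
    (hp : p.Prime) (he : 0 < e) (hv : (p : 𝓞 L) ∈ v.asIdeal)
    (hW : ∀ i, ∀ a ∈ M i, IsWeil (p ^ e) a ∧ IsOrd v (p ^ e) a)
    (hG : ∀ i, ∀ g : L ≃ₐ[ℚ] L, ∀ a ∈ M i, g a ∈ M i) (hc : ∀ i, (M i).card ≤ 12)
    (hbad : ∀ i, ¬ IsBad (p ^ e) (M i))
    (hind : ∀ i j, i ≠ j → ∀ a ∈ M i, ∀ b ∈ M j, Indep (p ^ e) a b)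
    (hs : ∀ a ∈ s, (∃ i, a ∈ M i) ∨ (IsWeil (p ^ e) a ∧ IsSS (p ^ e) a))
    (h51 : ∀ i, (M i).card = 12 → (∃ a ∈ M i, (conj a).card = 10) → ∀ a ∈ M i, s.count a ≤ 2)
    (hT : IsTate (p ^ e) s) : Gen v (p ^ e) s := by
  have hr0 : 0 < p ^ e := pow_pos hp.pos e
  have hvr : 0 < ord v ((p ^ e : ℕ) : L) := ord_r_pos v hp he hv
  have h0 : ∀ i, ∀ a ∈ M i, a ≠ 0 := fun i a ha => (hW i a ha).1.ne_zero hr0
  -- the sets are disjoint
  have hdis : ∀ i j, i ≠ j → ∀ a ∈ M i, a ∉ M j := by
    intro i j hij a ha ha'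
    have h1 := ip_zero_of_indep (v := v) hr0 (h0 i a ha) (h0 i a ha) (hind i j hij a ha a ha')
    rw [ip_self_eq_zero] at h1
    have h4 := congrFun h1 1
    unfold X at h4
    have e1 : (1 : L ≃ₐ[ℚ] L) a = a := rfl
    rw [e1, Pi.zero_apply] at h4
    have hq := ord_q (v := v) hr0
    rcases (hW i a ha).2 with h5 | h5 <;> omega
  -- decomposition
  set s0 := s.filter (fun a => ¬ ∃ i, a ∈ M i) with hs0
  have hdec : s = ∑ i, part (M i) s + s0 := by
    ext x
    rw [Multiset.count_add, Multiset.count_sum']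
    by_cases hx : ∃ i, x ∈ M i
    · obtain ⟨i, hi⟩ := hx
      rw [Finset.sum_eq_single_of_mem i (Finset.mem_univ i)]
      · unfold part
        rw [Multiset.count_filter_of_pos hi, hs0, Multiset.count_filter_of_neg (by
          rw [not_not]; exact ⟨i, hi⟩), add_zero]
      · intro j _ hj
        unfold part
        exact Multiset.count_filter_of_neg (hdis i j hj.symm x hi)
    · rw [Finset.sum_eq_zero, zero_add, hs0,
        Multiset.count_filter_of_pos (p := fun a => ¬ ∃ i, a ∈ M i) hx]
      intro j _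
      unfold part
      exact Multiset.count_filter_of_neg (fun h' => hx ⟨j, h'⟩)
  have hss : ∀ a ∈ s0, IsWeil (p ^ e) a ∧ IsSS (p ^ e) a := by
    intro a ha
    rw [hs0, Multiset.mem_filter] at ha
    exact (hs a ha.1).resolve_left ha.2
  have hX0 : ∀ a ∈ s0, X (p ^ e) v a = 0 := fun a ha =>
    (ss_iff (r := p ^ e) rfl hp hv (hss a ha).1).1 (hss a ha).2
  have hXS0 : XS (p ^ e) v s0 = 0 := by
    ext g
    unfold XS
    apply Multiset.sum_eq_zero
    intro x hx
    obtain ⟨a, ha, rfl⟩ := Multiset.mem_map.1 hx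
    rw [hX0 a ha]
    rfl
  have hpart : ∀ i, ∀ a ∈ part (M i) s, a ∈ M i := fun i a ha => (Multiset.mem_filter.1 ha).2
  have hsum : ∀ T : Finset ι, XS (p ^ e) v (∑ i ∈ T, part (M i) s) =
      ∑ i ∈ T, XS (p ^ e) v (part (M i) s) := by
    intro T
    induction T using Finset.induction_on with
    | empty =>
      ext g
      rw [Finset.sum_empty, Finset.sum_empty, XS_zero]
      rfl
    | insert i T hi ih =>
      rw [Finset.sum_insert hi, Finset.sum_insert hi, ← ih]
      ext g
      rw [XS_add, Pi.add_apply]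
  have hall : ∑ i, XS (p ^ e) v (part (M i) s) = 0 := by
    rw [← hsum]
    ext g
    have h1 := hT.2.XS_eq_zero (v := v) hr0 (by
      intro a ha
      rcases hs a ha with ⟨i, hi⟩ | h'
      · exact h0 i a hi
      · exact h'.1.ne_zero hr0) g
    rw [hdec, XS_add, hXS0] at h1
    simpa using h1
  have hzero : ∀ i, XS (p ^ e) v (part (M i) s) = 0 := by
    intro i
    rw [← ip_self_eq_zero]
    have h1 : ip (XS (p ^ e) v (part (M i) s)) (∑ j, XS (p ^ e) v (part (M j) s)) = 0 := by
      rw [hall]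
      unfold ip
      simp
    have h2 : ∀ (T : Finset ι) (f : (L ≃ₐ[ℚ] L) → ℤ) (F : ι → (L ≃ₐ[ℚ] L) → ℤ),
        ip f (∑ j ∈ T, F j) = ∑ j ∈ T, ip f (F j) := by
      intro T f F
      induction T using Finset.induction_on with
      | empty =>
        unfold ip
        simp
      | insert j T hj ih => rw [Finset.sum_insert hj, Finset.sum_insert hj, ip_add_right, ih]
    rw [h2, Finset.sum_eq_single_of_mem i (Finset.mem_univ i)] at h1
    · exact h1
    · intro j _ hj
      apply ip_XS_zero
      intro a ha b hb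
      exact ip_zero_of_indep hr0 (h0 i a (hpart i a ha)) (h0 j b (hpart j b hb))
        (hind i j hj.symm a (hpart i a ha) b (hpart j b hb))
  -- all parts are Tate multisets
  have hev : ∀ i, Even (part (M i) s).card := by
    intro i
    have h1 : ∑ a ∈ (part (M i) s).toFinset, ((part (M i) s).count a : ℤ) * X (p ^ e) v a 1 = 0 := by
      have h2 := congrFun (hzero i) 1
      unfold XS at h2
      rw [Finset.sum_multiset_map_count] at h2
      rw [Pi.zero_apply] at h2
      rw [← h2]
      exact Finset.sum_congr rfl (fun a _ => by rw [nsmul_eq_mul])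
    have hq := ord_q (v := v) hr0
    have h3 : ∀ a ∈ (part (M i) s).toFinset, ∃ ε : ℤ, (ε = 1 ∨ ε = -1) ∧
        X (p ^ e) v a 1 = ord v (((p ^ e : ℕ) : L) ^ 2) * ε := by
      intro a ha
      have haM := hpart i a (Multiset.mem_toFinset.1 ha)
      unfold X
      have e1 : (1 : L ≃ₐ[ℚ] L) a = a := rfl
      rw [e1]
      rcases (hW i a haM).2 with h5 | h5
      · exact ⟨-1, Or.inr rfl, by rw [h5]; ring⟩
      · exact ⟨1, Or.inl rfl, by rw [h5]; ring⟩
    choose! ε hε1 hε2 using h3
    have h4 : ∑ a ∈ (part (M i) s).toFinset, ((part (M i) s).count a : ℤ) * ε a = 0 := by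
      have h5 : ord v (((p ^ e : ℕ) : L) ^ 2) *
          ∑ a ∈ (part (M i) s).toFinset, ((part (M i) s).count a : ℤ) * ε a = 0 := by
        rw [Finset.mul_sum, ← h1]
        apply Finset.sum_congr rfl
        intro a ha
        rw [hε2 a ha]
        ring
      rcases mul_eq_zero.1 h5 with h6 | h6
      · omega
      · exact h6
    have h5 : ((part (M i) s).card : ℤ) =
        ∑ a ∈ (part (M i) s).toFinset, ((part (M i) s).count a : ℤ) := by
      rw [← Multiset.toFinset_sum_count_eq]
      push_cast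
      rfl
    have h6 : (2 : ℤ) ∣ ∑ a ∈ (part (M i) s).toFinset,
        (((part (M i) s).count a : ℤ) - ((part (M i) s).count a : ℤ) * ε a) := by
      apply Finset.dvd_sum
      intro a ha
      rcases hε1 a ha with h7 | h7 <;> rw [h7]
      · simp
      · exact ⟨(part (M i) s).count a, by ring⟩
    rw [Finset.sum_sub_distrib, h4, sub_zero, ← h5] at h6
    rw [even_iff_two_dvd]
    exact_mod_cast h6
  have hgen : ∀ i, Gen v (p ^ e) (part (M i) s) := by
    intro i
    apply gen_ord hp he hv (hW i) (hG i) (hc i) (hbad i) (fun a ha => Or.inl (hpart i a ha)) _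
      ⟨hev i, bal_of_XS rfl hp hv (fun a ha => (hW i a (hpart i a ha)).1) (fun g => by
        rw [hzero i]; rfl)⟩
    intro h12 h10 a ha
    exact (Multiset.count_le_of_le a (Multiset.filter_le _ s)).trans (h51 i h12 h10 a ha)
  have hgsum : ∀ T : Finset ι, Gen v (p ^ e) (∑ i ∈ T, part (M i) s) ∧
      Even (∑ i ∈ T, part (M i) s).card := by
    intro T
    induction T using Finset.induction_on with
    | empty => exact ⟨Gen.zero _, by simp⟩
    | insert i T hi ih =>
      rw [Finset.sum_insert hi, Multiset.card_add]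
      exact ⟨Gen.add _ _ _ (hgen i) ih.1, (hev i).add ih.2⟩
  rw [hdec]
  apply Gen.add _ _ _ (hgsum Finset.univ).1
  have h1 := hT.1
  rw [hdec, Multiset.card_add] at h1
  obtain ⟨k, hk⟩ := (Nat.even_add.1 h1).1 (hgsum Finset.univ).2
  exact gen_ss k _ (by omega) hss

end Pool.Agent.Lib.MP81632f.Mk6
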