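import Pool.Agent.Lib.MP_81632f_ag.Mk6.Quad

/-! # Two different quadruples form the bad configuration -/

namespace Pool.Agent.Lib.MP81632f.Mk6

variable {G α : Type} [Group G] [DecidableEq α] [MulAction G α]
variable {M : Finset α} {bar : α → α} {E : α → G → ℤ}
variable (S : Sys M bar E)
include S

/-- four elements -/
theorem Sys.four {T : Finset α} (hT : T ⊆ M) (hb : ∀ a ∈ T, bar a ∈ T) (h4 : T.card = 4) {n : α → ℤ}
    (hn : ∀ a ∈ T, n a = 1 ∨ n a = -1) (hodd : ∀ a ∈ T, n (bar a) = -n a) :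
    ∃ a ∈ T, ∃ b ∈ T, n a = 1 ∧ n b = 1 ∧ b ≠ a ∧ b ≠ bar a ∧
      ∀ g, ∑ x ∈ T, n x * E x g = 2 * (E a g + E b g) := by
  have hpick : ∀ x ∈ T, ∃ y ∈ T, n y = 1 ∧ (y = x ∨ y = bar x) := by
    intro x hx
    rcases hn x hx with h | h
    · exact ⟨x, hx, h, Or.inl rfl⟩
    · exact ⟨bar x, hb x hx, by rw [hodd x hx, h, neg_neg], Or.inr rfl⟩
  obtain ⟨x, hx⟩ : T.Nonempty := by rw [← Finset.card_pos]; omega
  obtain ⟨a, ha, ha1, _⟩ := hpick x hx
  have hane := S.bar_ne (hT ha)
  set T' := (T.erase a).erase (bar a) with hT'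
  have hc : T'.card = 2 := by
    rw [hT', Finset.card_erase_of_mem (Finset.mem_erase.2 ⟨hane, hb a ha⟩),
      Finset.card_erase_of_mem ha, h4]
  have hmem' : ∀ y ∈ T', y ∈ T ∧ y ≠ a ∧ y ≠ bar a := by
    intro y hy
    rw [hT', Finset.mem_erase, Finset.mem_erase] at hy
    exact ⟨hy.2.2, hy.2.1, hy.1⟩
  obtain ⟨y, hy⟩ : T'.Nonempty := by rw [← Finset.card_pos]; omega
  obtain ⟨hyT, hya, hyb⟩ := hmem' y hy
  obtain ⟨b, hbT, hb1, hb2⟩ := hpick y hyT
  have hba : b ≠ a := by
    rcases hb2 with h | h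
    · rw [h]; exact hya
    · rw [h]
      intro h'
      apply hyb
      rw [← h', S.bar_bar y (hT hyT)]
  have hbb : b ≠ bar a := by
    rcases hb2 with h | h
    · rw [h]; exact hyb
    · rw [h]
      intro h'
      apply hya
      have := congrArg bar h'
      rwa [S.bar_bar y (hT hyT), S.bar_bar a (hT ha)] at this
  refine ⟨a, ha, b, hbT, ha1, hb1, hba, hbb, ?_⟩
  intro g
  have hbne := S.bar_ne (hT hbT)
  have hb' : b ∈ T' := by
    rw [hT', Finset.mem_erase, Finset.mem_erase]
    exact ⟨hbb, hba, hbT⟩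
  have hbb' : bar b ∈ T' := by
    rw [hT', Finset.mem_erase, Finset.mem_erase]
    refine ⟨?_, ?_, hb b hbT⟩
    · intro h'
      apply hba
      have := congrArg bar h'
      rwa [S.bar_bar b (hT hbT), S.bar_bar a (hT ha)] at this
    · intro h'
      apply hbb
      rw [← h', S.bar_bar b (hT hbT)]
  have hT2 : T' = {b, bar b} := by
    symm
    apply Finset.eq_of_subset_of_card_le
    · intro z hz
      rw [Finset.mem_insert, Finset.mem_singleton] at hz
      rcases hz with rfl | rfl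
      · exact hb'
      · exact hbb'
    · rw [hc, Finset.card_pair hbne.symm]
  rw [← Finset.add_sum_erase T _ ha, ← Finset.add_sum_erase (T.erase a) _
      (Finset.mem_erase.2 ⟨hane, hb a ha⟩), ← hT', hT2, Finset.sum_pair hbne.symm, hodd a ha,
      hodd b hbT, S.neg a (hT ha), S.neg b (hT hbT), ha1, hb1]
  ring

variable (hM : M.card ≤ 12)
include hM

/-- the third quadruple -/
theorem Sys.third {n n' m : α → ℤ} (h : Quad M bar E n) (h' : Quad M bar E n') (hm : Quad M bar E m)
    (h1 : n' ≠ n) (h2 : n' ≠ -n) (h3 : m ≠ n) (h4 : m ≠ -n) (h5 : m ≠ n') (h6 : m ≠ -n') :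
    supp M m = M \ (supp M n ∩ supp M n') := by
  obtain ⟨c1, u1⟩ := S.card_inter hM h h' h1 h2
  obtain ⟨_, u2⟩ := S.card_inter hM h hm h3 h4
  obtain ⟨_, u3⟩ := S.card_inter hM h' hm h5 h6
  have hMc : M.card = 12 := by
    have := S.card_union h h'
    rw [u1] at this
    omega
  have hm8 := S.card_supp hm
  symm
  apply Finset.eq_of_subset_of_card_le
  · intro a ha
    rw [Finset.mem_sdiff, Finset.mem_inter, not_and_or] at ha
    obtain ⟨haM, ha⟩ := ha
    rcases ha with ha | ha
    · have := u2.symm ▸ haM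
      exact (Finset.mem_union.1 this).resolve_left ha
    · have := u3.symm ▸ haM
      exact (Finset.mem_union.1 this).resolve_left ha
  · have hsub : supp M n ∩ supp M n' ⊆ M :=
      Finset.inter_subset_left.trans (Finset.filter_subset _ _)
    rw [Finset.card_sdiff_of_subset hsub, c1, hMc]
    omega

/-- without a third quadruple -/
theorem Sys.no_third {n n' m : α → ℤ} (h : Quad M bar E n) (h' : Quad M bar E n')
    (hm : Quad M bar E m) (h1 : n' ≠ n) (h2 : n' ≠ -n) (h7 : nu M (n - n') ≠ 8)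
    (h8 : nu M (n + n') ≠ 8) : m = n ∨ m = -n ∨ m = n' ∨ m = -n' := by
  by_contra hcon
  simp only [not_or] at hcon
  obtain ⟨h3, h4, h5, h6⟩ := hcon
  have hs := S.third hM h h' hm h1 h2 h3 h4 h5 h6
  obtain ⟨c1, u1⟩ := S.card_inter hM h h' h1 h2
  have hMc : M.card = 12 := by
    have := S.card_union h h'
    rw [u1] at this
    omega
  have hu : n - n' ≠ 0 := fun h0 => h1 (sub_eq_zero.1 h0).symm
  have hv : n + n' ≠ 0 := fun h0 => h2 (eq_neg_of_add_eq_zero_right h0)
  have k1 := S.nu_ge (h.rel.sub h'.rel) hu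
  have k2 := S.nu_ge (h.rel.add h'.rel) hv
  obtain ⟨d1, hd1⟩ := S.nu_dvd (h.rel.sub h'.rel)
  obtain ⟨d2, hd2⟩ := S.nu_dvd (h.rel.add h'.rel)
  have k3 := S.quad_sum h h'
  rw [u1, hMc] at k3
  have k4 : nu M (n + n') = 12 := by omega
  -- the values of the three quadruples
  have hval : ∀ a, (n a = 0 ∧ n' a = 0 ∧ m a = 0) ∨ (m a = 0 ∧ n a ≠ 0 ∧ n' a ≠ 0) ∨
      (m a ≠ 0 ∧ n a = 0 ∧ n' a ≠ 0) ∨ (m a ≠ 0 ∧ n a ≠ 0 ∧ n' a = 0) := by
    intro a
    by_cases haM : a ∈ M
    · have e1 := mem_supp (M := M) (n := n) (a := a)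
      have e2 := mem_supp (M := M) (n := n') (a := a)
      have e3 := mem_supp (M := M) (n := m) (a := a)
      rw [hs, Finset.mem_sdiff, Finset.mem_inter, e1, e2] at e3
      have e4 : a ∈ supp M n ∪ supp M n' := u1.symm ▸ haM
      rw [Finset.mem_union, e1, e2] at e4
      tauto
    · left
      exact ⟨h.rel.out a haM, h'.rel.out a haM, hm.rel.out a haM⟩
  have q := S.quad_cases h
  have q' := S.quad_cases h'
  have qm := S.quad_cases hm
  set u : α → ℤ := fun a => (n a + n' a + m a) / 2 with hu'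
  set w : α → ℤ := fun a => (n a + n' a - m a) / 2 with hw'
  have e1 : ∀ a, (n + n' + m) a = 2 * u a := by
    intro a
    rw [Pi.add_apply, Pi.add_apply, hu']
    show n a + n' a + m a = 2 * ((n a + n' a + m a) / 2)
    have := hval a
    rcases q a with f | f | f <;> rcases q' a with f' | f' | f' <;> rcases qm a with g | g | g <;> omega
  have e2 : ∀ a, (n + n' - m) a = 2 * w a := by
    intro a
    rw [Pi.sub_apply, Pi.add_apply, hw']
    show n a + n' a - m a = 2 * ((n a + n' a - m a) / 2)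
    have := hval a
    rcases q a with f | f | f <;> rcases q' a with f' | f' | f' <;> rcases qm a with g | g | g <;> omega
  have ru := ((h.rel.add h'.rel).add hm.rel).half e1
  have rw' := ((h.rel.add h'.rel).sub hm.rel).half e2
  have e3 : nu M u + nu M w = nu M (n + n') := by
    unfold nu
    rw [← Finset.sum_add_distrib]
    apply Finset.sum_congr rfl
    intro a _
    have f1 := e1 a
    have f2 := e2 a
    have f3 := hval a
    rw [Pi.add_apply, Pi.add_apply] at f1
    rw [Pi.sub_apply, Pi.add_apply] at f2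
    rw [Pi.add_apply]
    have g0 := q a
    have g1 := q' a
    have g2 := qm a
    rcases abs_cases (u a) with ⟨t1, t2⟩ | ⟨t1, t2⟩ <;> rcases abs_cases (w a) with ⟨t3, t4⟩ | ⟨t3, t4⟩ <;>
      rcases abs_cases (n a + n' a) with ⟨t5, t6⟩ | ⟨t5, t6⟩ <;> rw [t1, t3, t5] <;> omega
  have hu0 : u = 0 ∨ w = 0 := by
    by_contra hc
    rw [not_or] at hc
    have := S.nu_ge ru hc.1
    have := S.nu_ge rw' hc.2
    omega
  have hm8 := hm.eight
  rcases hu0 with h0 | h0
  · apply h8
    have : n + n' = -m := by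
      ext a
      have := e1 a
      rw [h0] at this
      rw [Pi.add_apply, Pi.add_apply, Pi.zero_apply] at this
      rw [Pi.add_apply, Pi.neg_apply]
      omega
    rw [this, nu_neg, hm8]
  · apply h8
    have : n + n' = m := by
      ext a
      have := e2 a
      rw [h0] at this
      rw [Pi.sub_apply, Pi.add_apply, Pi.zero_apply] at this
      rw [Pi.add_apply]
      omega
    rw [this, hm8]

end Pool.Agent.Lib.MP81632f.Mk6
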