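import Pool.Agent.Lib.MP_81632f_ag.Mk6.Abs

/-! # Semi-invariant relations: blocks -/

namespace Pool.Agent.Lib.MP81632f.Mk6

variable {G α : Type} [Group G] [DecidableEq α] [MulAction G α]
variable {M : Finset α} {bar : α → α} {E : α → G → ℤ}

/-- every group element fixes `n` up to sign -/
def SemiInv (G : Type) [Group G] [MulAction G α] (n : α → ℤ) : Prop :=
  ∀ k : G, (∀ a, n (k • a) = n a) ∨ (∀ a, n (k • a) = -n a)

/-- generators -/
structure IsGen (M : Finset α) (bar : α → α) (E : α → G → ℤ) (n : α → ℤ) : Prop where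
  rel : Rel M bar E n
  semi : SemiInv G n
  nu : nu M n = 8 ∨ nu M n = 12

open Classical in
/-- orbits -/
noncomputable def orb (G : Type) [Group G] [MulAction G α] (M : Finset α) (a : α) : Finset α :=
  M.filter (fun b => ∃ g : G, g • a = b)

open Classical in
theorem mem_orb {a b : α} : b ∈ orb G M a ↔ b ∈ M ∧ ∃ g : G, g • a = b := by
  unfold orb
  exact Finset.mem_filter

/-- a block of a semi-invariant function -/
structure Blk (M : Finset α) (bar : α → α) (G : Type) [Group G] [MulAction G α] (n : α → ℤ)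
    (O : Finset α) (κ : α → ℤ) (C : ℤ) : Prop where
  sub : O ⊆ M
  ne : O.Nonempty
  smul : ∀ (k : G), ∀ b ∈ O, k • b ∈ O
  barO : ∀ b ∈ O, bar b ∈ O
  zero : ∀ b, b ∉ O → κ b = 0
  one : ∀ b ∈ O, κ b = 1 ∨ κ b = -1
  odd : ∀ b ∈ M, κ (bar b) = -κ b
  pos : 0 < C
  eq : ∀ b ∈ O, n b = C * κ b
  tr : ∀ b ∈ O, orb G M b = O
  sgn : ∀ k : G, (∀ a, n (k • a) = n a) → ∀ a, κ (k • a) = κ a
  sgn' : ∀ k : G, (∀ a, n (k • a) = -n a) → ∀ a, κ (k • a) = -κ a

/-- the value of `κ` at the group element `g` -/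
def PP (M : Finset α) (E : α → G → ℤ) (κ : α → ℤ) (g : G) : ℤ := ∑ b ∈ M, κ b * E b g

variable (S : Sys M bar E)
include S

theorem Sys.mem_orb_self {a : α} (ha : a ∈ M) : a ∈ orb G M a := mem_orb.2 ⟨ha, 1, one_smul _ _⟩

theorem Sys.orb_eq {a b : α} (h : b ∈ orb G M a) : orb G M b = orb G M a := by
  obtain ⟨_, g, hg⟩ := mem_orb.1 h
  ext x
  rw [mem_orb, mem_orb]
  constructor
  · rintro ⟨hx, k, hk⟩
    exact ⟨hx, k * g, by rw [mul_smul, hg, hk]⟩
  · rintro ⟨hx, k, hk⟩
    exact ⟨hx, k * g⁻¹, by rw [← hg, mul_smul, inv_smul_smul, hk]⟩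

/-- the block of an element -/
theorem Sys.exists_blk {n : α → ℤ} (h : Rel M bar E n) (hs : SemiInv G n) {a : α} (ha : n a ≠ 0) :
    ∃ κ : α → ℤ, Blk M bar G n (orb G M a) κ |n a| := by
  have haM : a ∈ M := by
    by_contra h'
    exact ha (h.out a h')
  have hO : ∀ (k : G), ∀ b, k • b ∈ orb G M a ↔ b ∈ orb G M a := by
    intro k b
    rw [mem_orb, mem_orb, S.smul_mem_iff]
    constructor
    · rintro ⟨h1, g, h2⟩
      exact ⟨h1, k⁻¹ * g, by rw [mul_smul, h2, inv_smul_smul]⟩
    · rintro ⟨h1, g, h2⟩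
      exact ⟨h1, k * g, by rw [mul_smul, h2]⟩
  have habs : ∀ b ∈ orb G M a, |n b| = |n a| := by
    intro b hb
    obtain ⟨_, g, rfl⟩ := mem_orb.1 hb
    rcases hs g with h1 | h1
    · rw [h1]
    · rw [h1, abs_neg]
  have hbar : ∀ b ∈ M, (bar b ∈ orb G M a ↔ b ∈ orb G M a) := by
    intro b hb
    obtain ⟨c, hc⟩ := S.conj
    rw [← hc b hb]
    exact hO c b
  have hne : ∀ b ∈ orb G M a, n b ≠ 0 := by
    intro b hb h0
    have := habs b hb
    rw [h0, abs_zero] at this
    exact ha (abs_eq_zero.1 this.symm)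
  refine ⟨fun b => if b ∈ orb G M a then (n b).sign else 0, ?_⟩
  refine ⟨fun b hb => (mem_orb.1 hb).1, ⟨a, S.mem_orb_self haM⟩, fun k b hb => (hO k b).2 hb,
    fun b hb => (hbar b (mem_orb.1 hb).1).2 hb, fun b hb => if_neg hb, ?_, ?_, abs_pos.2 ha, ?_,
    fun b hb => S.orb_eq hb, ?_, ?_⟩
  · intro b hb
    rw [if_pos hb]
    rcases lt_or_gt_of_ne (hne b hb) with h1 | h1
    · right; exact Int.sign_eq_neg_one_of_neg h1
    · left; exact Int.sign_eq_one_of_pos h1
  · intro b hb
    have hiff := hbar b hb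
    by_cases hbo : b ∈ orb G M a
    · rw [if_pos (hiff.2 hbo), if_pos hbo, h.odd b hb, Int.sign_neg]
    · rw [if_neg (fun h' => hbo (hiff.1 h')), if_neg hbo, neg_zero]
  · intro b hb
    rw [if_pos hb, ← habs b hb, mul_comm]
    exact (Int.sign_mul_abs (n b)).symm
  · intro k hk b
    show (if k • b ∈ orb G M a then (n (k • b)).sign else 0) = if b ∈ orb G M a then (n b).sign else 0
    simp only [hO k b, hk b]
  · intro k hk b
    show (if k • b ∈ orb G M a then (n (k • b)).sign else 0) = -if b ∈ orb G M a then (n b).sign else 0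
    simp only [hO k b, hk b, Int.sign_neg]
    split_ifs <;> simp

theorem Sys.PP_eq {κ : α → ℤ} {k : G} (hk : ∀ a, κ (k • a) = κ a) (g : G) :
    PP M E κ (g * k) = PP M E κ g := by
  unfold PP
  rw [← S.sum_smul k (fun b => κ b * E b g)]
  apply Finset.sum_congr rfl
  intro b hb
  rw [hk b, S.act b hb]

theorem Sys.PP_neg {κ : α → ℤ} {k : G} (hk : ∀ a, κ (k • a) = -κ a) (g : G) :
    PP M E κ (g * k) = -PP M E κ g := by
  unfold PP
  rw [← S.sum_smul k (fun b => κ b * E b g), ← Finset.sum_neg_distrib]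
  apply Finset.sum_congr rfl
  intro b hb
  rw [hk b, S.act b hb]
  ring

variable {n : α → ℤ} {O O' : Finset α} {κ κ' : α → ℤ} {C C' : ℤ}

/-- blocks with vanishing value are relations -/
theorem Sys.comb (hs : SemiInv G n) (B : Blk M bar G n O κ C) (B' : Blk M bar G n O' κ' C') (x y : ℤ)
    (h : x * PP M E κ 1 + y * PP M E κ' 1 = 0) :
    Rel M bar E (x • κ + y • κ') ∧ SemiInv G (x • κ + y • κ') := by
  refine ⟨⟨?_, ?_, ?_⟩, ?_⟩
  · intro a ha
    rw [Pi.add_apply, Pi.smul_apply, Pi.smul_apply, B.zero a (fun h' => ha (B.sub h')),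
      B'.zero a (fun h' => ha (B'.sub h'))]
    simp
  · intro a ha
    rw [Pi.add_apply, Pi.smul_apply, Pi.smul_apply, Pi.add_apply, Pi.smul_apply, Pi.smul_apply,
      B.odd a ha, B'.odd a ha]
    simp only [smul_eq_mul]
    ring
  · intro g
    have e : ∑ a ∈ M, (x • κ + y • κ') a * E a g = x * PP M E κ g + y * PP M E κ' g := by
      unfold PP
      rw [Finset.mul_sum, Finset.mul_sum, ← Finset.sum_add_distrib]
      apply Finset.sum_congr rfl
      intro a _
      rw [Pi.add_apply, Pi.smul_apply, Pi.smul_apply, smul_eq_mul, smul_eq_mul]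
      ring
    rw [e]
    rcases hs g with h1 | h1
    · have e1 := S.PP_eq (B.sgn g h1) 1
      have e2 := S.PP_eq (B'.sgn g h1) 1
      rw [one_mul] at e1 e2
      rw [e1, e2, h]
    · have e1 := S.PP_neg (B.sgn' g h1) 1
      have e2 := S.PP_neg (B'.sgn' g h1) 1
      rw [one_mul] at e1 e2
      rw [e1, e2]
      linarith
  · intro k
    rcases hs k with h1 | h1
    · left
      intro a
      rw [Pi.add_apply, Pi.smul_apply, Pi.smul_apply, Pi.add_apply, Pi.smul_apply, Pi.smul_apply,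
        B.sgn k h1 a, B'.sgn k h1 a]
    · right
      intro a
      rw [Pi.add_apply, Pi.smul_apply, Pi.smul_apply, Pi.add_apply, Pi.smul_apply, Pi.smul_apply,
        B.sgn' k h1 a, B'.sgn' k h1 a]
      simp only [smul_eq_mul]
      ring

/-- the norm of a combination of two disjoint blocks -/
theorem Sys.nu_comb (B : Blk M bar G n O κ C) (B' : Blk M bar G n O' κ' C') (hd : Disjoint O O')
    (x y : ℤ) : nu M (x • κ + y • κ') = |x| * O.card + |y| * O'.card := by
  have h1 : ∀ (z : ℤ) {T : Finset α}, T ⊆ M → |z| * (T.card : ℤ) = ∑ a ∈ M, if a ∈ T then |z| else 0 := by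
    intro z T hT
    rw [Finset.sum_ite_mem, Finset.inter_eq_right.2 hT, Finset.sum_const, nsmul_eq_mul, mul_comm]
  rw [h1 x B.sub, h1 y B'.sub, ← Finset.sum_add_distrib]
  unfold nu
  apply Finset.sum_congr rfl
  intro a _
  rw [Pi.add_apply, Pi.smul_apply, Pi.smul_apply, smul_eq_mul, smul_eq_mul]
  by_cases ha : a ∈ O
  · have ha' : a ∉ O' := Finset.disjoint_left.1 hd ha
    rw [if_pos ha, if_neg ha', B'.zero a ha', mul_zero, add_zero, add_zero, abs_mul]
    rcases B.one a ha with h | h <;> rw [h] <;> simp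
  · rw [if_neg ha, B.zero a ha]
    by_cases ha' : a ∈ O'
    · rw [if_pos ha', mul_zero, zero_add, zero_add, abs_mul]
      rcases B'.one a ha' with h | h <;> rw [h] <;> simp
    · rw [if_neg ha', B'.zero a ha']
      simp

/-- the values and sizes of the blocks -/
theorem Sys.blk_cases (hs : SemiInv G n) (B : Blk M bar G n O κ C) :
    (4 : ℤ) ∣ (O.card : ℤ) - PP M E κ 1 ∧ |PP M E κ 1| ≤ O.card ∧
      (|PP M E κ 1| = O.card → O.card = 2) ∧ 2 ∣ O.card ∧ 2 ≤ O.card := by
  have hcard : (O.card : ℤ) = ∑ b ∈ M, |κ b| := by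
    have : (O.card : ℤ) = ∑ b ∈ M, if b ∈ O then (1 : ℤ) else 0 := by
      rw [Finset.sum_ite_mem, Finset.inter_eq_right.2 B.sub, Finset.sum_const, nsmul_eq_mul, mul_one]
    rw [this]
    apply Finset.sum_congr rfl
    intro b _
    by_cases hb : b ∈ O
    · rw [if_pos hb]
      rcases B.one b hb with h | h <;> rw [h] <;> simp
    · rw [if_neg hb, B.zero b hb, abs_zero]
  have hterm : ∀ b ∈ M, ∀ g, |κ b * E b g| = |κ b| := by
    intro b hb g
    rcases S.val b hb g with h | h <;> rw [h] <;> simp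
  have hle : ∀ g, |PP M E κ g| ≤ O.card := by
    intro g
    rw [hcard]
    unfold PP
    calc |∑ b ∈ M, κ b * E b g| ≤ ∑ b ∈ M, |κ b * E b g| := Finset.abs_sum_le_sum_abs _ _
      _ = _ := Finset.sum_congr rfl (fun b hb => hterm b hb g)
  have habs : ∀ g, |PP M E κ g| = |PP M E κ 1| := by
    intro g
    rcases hs g with h1 | h1
    · have e1 := S.PP_eq (B.sgn g h1) 1
      rw [one_mul] at e1
      rw [e1]
    · have e1 := S.PP_neg (B.sgn' g h1) 1
      rw [one_mul] at e1
      rw [e1, abs_neg]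
  obtain ⟨b, hb⟩ := B.ne
  have hbM := B.sub hb
  have hpair : ∀ x ∈ O, ({x, bar x} : Finset α) ⊆ O := by
    intro x hx y hy
    rw [Finset.mem_insert, Finset.mem_singleton] at hy
    rcases hy with rfl | rfl
    · exact hx
    · exact B.barO x hx
  have h2 : 2 ≤ O.card := by
    have := Finset.card_le_card (hpair b hb)
    rwa [Finset.card_pair (S.bar_ne hbM).symm] at this
  have heven : (2 : ℤ) ∣ (O.card : ℤ) := by
    rw [hcard, S.sum_pos (fun b => |κ b|) (fun b hb => by rw [B.odd b hb, abs_neg])]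
    exact Dvd.intro _ rfl
  refine ⟨?_, hle 1, ?_, by exact_mod_cast heven, h2⟩
  · have e1 : (O.card : ℤ) - PP M E κ 1 = ∑ b ∈ M, (|κ b| - κ b * E b 1) := by
      rw [Finset.sum_sub_distrib, ← hcard]
      rfl
    rw [e1, S.sum_pos (fun b => |κ b| - κ b * E b 1)
      (fun b hb => by rw [B.odd b hb, abs_neg, S.neg b hb]; ring)]
    have h3 : (2 : ℤ) ∣ ∑ b ∈ pos M E, (|κ b| - κ b * E b 1) := by
      apply Finset.dvd_sum
      intro x hx
      have h4 : E x 1 = 1 := (Finset.mem_filter.1 hx).2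
      rw [h4, mul_one]
      rcases abs_choice (κ x) with h5 | h5 <;> rw [h5]
      · simp
      · exact ⟨-κ x, by ring⟩
    obtain ⟨c, hc⟩ := h3
    exact ⟨c, by rw [hc]; ring⟩
  · intro hP
    have hall : ∀ g, ∀ x ∈ O, ∀ y ∈ O, κ x * E x g = κ y * E y g := by
      intro g
      have hg : |PP M E κ g| = ∑ x ∈ M, |κ x| := by rw [habs g, hP, hcard]
      -- all terms have the same sign
      have hterm' : ∀ σ : ℤ, (σ = 1 ∨ σ = -1) → PP M E κ g = σ * ∑ x ∈ M, |κ x| →
          ∀ x ∈ M, κ x * E x g = σ * |κ x| := by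
        intro σ hσ hsum
        have e1 : ∑ x ∈ M, (|κ x| - σ * (κ x * E x g)) = 0 := by
          rw [Finset.sum_sub_distrib, ← Finset.mul_sum]
          have e2 : ∑ x ∈ M, κ x * E x g = PP M E κ g := rfl
          rw [e2, hsum]
          rcases hσ with h | h <;> rw [h] <;> ring
        have e2 : ∀ x ∈ M, 0 ≤ |κ x| - σ * (κ x * E x g) := by
          intro x hx
          have h5 := hterm x hx g
          have h6 := le_abs_self (κ x * E x g)
          have h7 := neg_abs_le (κ x * E x g)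
          rw [h5] at h6 h7
          rcases hσ with h | h <;> rw [h] <;> linarith
        intro x hx
        have h5 := (Finset.sum_eq_zero_iff_of_nonneg e2).1 e1 x hx
        rcases hσ with h | h <;> rw [h] at h5 ⊢ <;> linarith
      have hex : ∃ σ : ℤ, (σ = 1 ∨ σ = -1) ∧ PP M E κ g = σ * ∑ x ∈ M, |κ x| := by
        rcases abs_choice (PP M E κ g) with h5 | h5
        · exact ⟨1, Or.inl rfl, by rw [one_mul, ← hg, h5]⟩
        · exact ⟨-1, Or.inr rfl, by rw [← hg, h5]; ring⟩
      obtain ⟨σ, hσ, h5⟩ := hex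
      intro x hx y hy
      rw [hterm' σ hσ h5 x (B.sub hx), hterm' σ hσ h5 y (B.sub hy)]
      rcases B.one x hx with h | h <;> rcases B.one y hy with h' | h' <;> rw [h, h'] <;> simp
    have hO : O = {b, bar b} := by
      symm
      apply Finset.Subset.antisymm (hpair b hb)
      intro x hx
      rw [Finset.mem_insert, Finset.mem_singleton]
      rcases eq_or_ne (κ x) (κ b) with h5 | h5
      · left
        apply S.inj x (B.sub hx) b hbM
        intro g
        have h6 := hall g x hx b hb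
        rw [h5] at h6
        rcases B.one b hb with h | h <;> rw [h] at h6 <;> linarith
      · right
        apply S.inj_neg (B.sub hx) hbM
        intro g
        have h6 := hall g x hx b hb
        rcases B.one x hx with h | h <;> rcases B.one b hb with h' | h' <;> rw [h, h'] at h6 h5 <;>
          first | exact absurd rfl h5 | linarith
    rw [hO, Finset.card_pair (S.bar_ne hbM).symm]

end Pool.Agent.Lib.MP81632f.Mk6
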